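import Pool.Agent.Helper83.TM.St.Lf

/-!
# TM-Ch: the chain of finite sets of types

`V δ F` denotes the set of the triples `(A x y z, B x y z, C x y z)`, `x, y, z ∈ Nr S δ F`; it is
finite for some `δ > 0` (`lf_hull`), and `V δ' F ⊆ V δ F` for `δ' ≤ δ` (`thickening_mono`).

1. `F0 = {S.one}`, `δ0`, `V0 = V δ0 F0` finite.  For `q ∈ V0` there is `τ ∈ S.Ty` with `q.2.1 τ = 0`
   (`m.dB`, the arguments are types); choose one: `τ q`.  `F1 = F0 ∪ τ '' V0`, finite, `⊆ S.Ty`.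
2. `δ1`, `V1 = V δ1 F1` finite, `D1 = {q.2.1 - q'.2.1 | q, q' ∈ V1}` finite.  For `w ∈ D1` choose
   `τ w ∈ S.Ty` with `w τ = lam τ` if there is one, else `S.one`.  `F2 = F1 ∪ τ '' D1`.
3. `δ2`, `V2 = V δ2 F2`, `D2 = {q.1 - q'.1} ∪ {q.2.2 - q'.2.2}` (`q, q' ∈ V2`), finite.  For
   `(w, v) ∈ D1 ×ˢ D2` choose `τ w v ∈ S.Ty` with `w τ = lam τ`, `v τ = 0` if there is one, else
   `S.one`.  `F3 = F2 ∪ (image of D1 ×ˢ D2)`.
4. `δ3`, `V3 = V δ3 F3`, `D` = the set of all differences of first, of second and of third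
   components of `V3`: finite, closed under negation, contained in `S.Tri` (`m.tA, m.tB, m.tC`).
   `δ` = the minimum of `δ0, .., δ3`.
-/

set_option autoImplicit false

open Set Filter Topology

namespace Pool.Agent.Helper83.TM

variable {E : Type*} [NormedAddCommGroup E] [NormedSpace ℝ E] {S : Space E}

/-- the triples of pieces near the hull of `F` -/
private def ch_V (m : Mech S) (δ : ℝ) (F : Set E) :
    Set ((E →L[ℝ] ℝ) × (E →L[ℝ] ℝ) × (E →L[ℝ] ℝ)) :=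
  {q | ∃ x ∈ Nr S δ F, ∃ y ∈ Nr S δ F, ∃ z ∈ Nr S δ F, q = (m.A x y z, m.B x y z, m.C x y z)}

private theorem ch_Nr {δ δ' : ℝ} (h : δ ≤ δ') {F : Set E} {x : E} (hx : x ∈ Nr S δ F) :
    x ∈ Nr S δ' F := ⟨hx.1, Metric.thickening_mono h _ hx.2⟩

open Classical in
/-- a type with the property `p`, if there is one -/
private noncomputable def ch_pick (S : Space E) (p : E → Prop) : E :=
  if h : ∃ τ ∈ S.Ty, p τ then h.choose else S.one

private theorem ch_pick_ty (p : E → Prop) : ch_pick S p ∈ S.Ty := by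
  unfold ch_pick
  split_ifs with h
  · exact h.choose_spec.1
  · exact interior_subset S.one_int

private theorem ch_pick_spec {p : E → Prop} (h : ∃ τ ∈ S.Ty, p τ) : p (ch_pick S p) := by
  unfold ch_pick
  rw [dif_pos h]
  exact h.choose_spec.2

theorem exists_chain (m : Mech S) : Nonempty (Chain m) := by
  have hone : S.one ∈ S.Ty := interior_subset S.one_int
  obtain ⟨δ0, h0, V0f⟩ := lf_hull m (finite_singleton S.one) (singleton_subset_iff.2 hone)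
  set V0 := ch_V m δ0 {S.one} with hV0
  have V0f' : V0.Finite := V0f
  set F1 : Set E := insert S.one ((fun q => ch_pick S (fun τ => q.2.1 τ = 0)) '' V0) with hF1
  have F1f : F1.Finite := (V0f'.image _).insert _
  have F1t : F1 ⊆ S.Ty := by
    rw [hF1, insert_subset_iff]
    refine ⟨hone, ?_⟩
    rintro _ ⟨q, -, rfl⟩
    exact ch_pick_ty _
  obtain ⟨δ1, h1, V1f⟩ := lf_hull m F1f F1t
  set V1 := ch_V m δ1 F1 with hV1
  have V1f' : V1.Finite := V1f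
  set D1 : Set (E →L[ℝ] ℝ) := image2 (fun q q' => q.2.1 - q'.2.1) V1 V1 with hD1
  have D1f : D1.Finite := V1f'.image2 _ V1f'
  set F2 : Set E := F1 ∪ (fun w : E →L[ℝ] ℝ => ch_pick S (fun τ => w τ = S.lam τ)) '' D1 with hF2
  have F2f : F2.Finite := F1f.union (D1f.image _)
  have F2t : F2 ⊆ S.Ty := by
    rw [hF2, union_subset_iff]
    refine ⟨F1t, ?_⟩
    rintro _ ⟨w, -, rfl⟩
    exact ch_pick_ty _
  obtain ⟨δ2, h2, V2f⟩ := lf_hull m F2f F2t
  set V2 := ch_V m δ2 F2 with hV2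
  have V2f' : V2.Finite := V2f
  set D2 : Set (E →L[ℝ] ℝ) := image2 (fun q q' => q.1 - q'.1) V2 V2 ∪
    image2 (fun q q' => q.2.2 - q'.2.2) V2 V2 with hD2
  have D2f : D2.Finite := (V2f'.image2 _ V2f').union (V2f'.image2 _ V2f')
  set F3 : Set E := F2 ∪ image2 (fun w v : E →L[ℝ] ℝ =>
    ch_pick S (fun τ => w τ = S.lam τ ∧ v τ = 0)) D1 D2 with hF3
  have F3f : F3.Finite := F2f.union (D1f.image2 _ D2f)
  have F3t : F3 ⊆ S.Ty := by
    rw [hF3, union_subset_iff]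
    refine ⟨F2t, ?_⟩
    rintro _ ⟨w, -, v, -, rfl⟩
    exact ch_pick_ty _
  obtain ⟨δ3, h3, V3f⟩ := lf_hull m F3f F3t
  set V3 := ch_V m δ3 F3 with hV3
  have V3f' : V3.Finite := V3f
  set D : Set (E →L[ℝ] ℝ) := (image2 (fun q q' => q.1 - q'.1) V3 V3 ∪
    image2 (fun q q' => q.2.1 - q'.2.1) V3 V3) ∪
    image2 (fun q q' => q.2.2 - q'.2.2) V3 V3 with hD
  have Df : D.Finite := ((V3f'.image2 _ V3f').union (V3f'.image2 _ V3f')).union
    (V3f'.image2 _ V3f')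
  set δ := min (min δ0 δ1) (min δ2 δ3) with hδ
  have hδ0 : δ ≤ δ0 := (min_le_left _ _).trans (min_le_left _ _)
  have hδ1 : δ ≤ δ1 := (min_le_left _ _).trans (min_le_right _ _)
  have hδ2 : δ ≤ δ2 := (min_le_right _ _).trans (min_le_left _ _)
  have hδ3 : δ ≤ δ3 := (min_le_right _ _).trans (min_le_right _ _)
  have mem : ∀ (δ' : ℝ) (F : Set E), δ ≤ δ' → ∀ x ∈ Nr S δ F, ∀ y ∈ Nr S δ F, ∀ z ∈ Nr S δ F,
      (m.A x y z, m.B x y z, m.C x y z) ∈ ch_V m δ' F := fun δ' F h x hx y hy z hz =>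
    ⟨x, ch_Nr h hx, y, ch_Nr h hy, z, ch_Nr h hz, rfl⟩
  exact ⟨{
    δ := δ
    δ_pos := lt_min (lt_min h0 h1) (lt_min h2 h3)
    F1 := F1
    F2 := F2
    F3 := F3
    fin := F3f
    ty := F3t
    one1 := mem_insert _ _
    s12 := subset_union_left
    s23 := subset_union_left
    D1 := D1
    D2 := D2
    D := D
    D_fin := Df
    D_tri := by
      rintro _ ((⟨_, ⟨x, -, y, -, z, -, rfl⟩, _, ⟨x', -, y', -, z', -, rfl⟩, rfl⟩ |
        ⟨_, ⟨x, -, y, -, z, -, rfl⟩, _, ⟨x', -, y', -, z', -, rfl⟩, rfl⟩) |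
        ⟨_, ⟨x, -, y, -, z, -, rfl⟩, _, ⟨x', -, y', -, z', -, rfl⟩, rfl⟩)
      · exact m.tA _ _ _ _ _ _
      · exact m.tB _ _ _ _ _ _
      · exact m.tC _ _ _ _ _ _
    D_neg := by
      rintro _ ((⟨q, hq, q', hq', rfl⟩ | ⟨q, hq, q', hq', rfl⟩) | ⟨q, hq, q', hq', rfl⟩)
      · exact Or.inl (Or.inl ⟨q', hq', q, hq, (neg_sub _ _).symm⟩)
      · exact Or.inl (Or.inr ⟨q', hq', q, hq, (neg_sub _ _).symm⟩)
      · exact Or.inr ⟨q', hq', q, hq, (neg_sub _ _).symm⟩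
    t1 := fun x hx y hy z hz => by
      have hq := mem δ0 {S.one} hδ0 x hx y hy z hz
      refine ⟨_, mem_insert_of_mem _ (mem_image_of_mem _ hq), ?_⟩
      exact ch_pick_spec (S := S) (p := fun τ => m.B x y z τ = 0) (m.dB x y z hx.1 hz.1)
    d1 := fun x hx y hy z hz x' hx' y' hy' z' hz' =>
      ⟨_, mem δ1 F1 hδ1 x hx y hy z hz, _, mem δ1 F1 hδ1 x' hx' y' hy' z' hz', rfl⟩
    t2 := fun w hw h => ⟨_, Or.inr (mem_image_of_mem _ hw),
      ch_pick_spec (S := S) (p := fun τ => w τ = S.lam τ) h⟩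
    d2A := fun x hx y hy z hz x' hx' y' hy' z' hz' =>
      Or.inl ⟨_, mem δ2 F2 hδ2 x hx y hy z hz, _, mem δ2 F2 hδ2 x' hx' y' hy' z' hz', rfl⟩
    d2C := fun x hx y hy z hz x' hx' y' hy' z' hz' =>
      Or.inr ⟨_, mem δ2 F2 hδ2 x hx y hy z hz, _, mem δ2 F2 hδ2 x' hx' y' hy' z' hz', rfl⟩
    t3 := fun w hw v hv h => ⟨_, Or.inr (mem_image2_of_mem hw hv),
      ch_pick_spec (S := S) (p := fun τ => w τ = S.lam τ ∧ v τ = 0) h⟩
    d3A := fun x hx y hy z hz x' hx' y' hy' z' hz' => Or.inl (Or.inl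
      ⟨_, mem δ3 F3 hδ3 x hx y hy z hz, _, mem δ3 F3 hδ3 x' hx' y' hy' z' hz', rfl⟩)
    d3B := fun x hx y hy z hz x' hx' y' hy' z' hz' => Or.inl (Or.inr
      ⟨_, mem δ3 F3 hδ3 x hx y hy z hz, _, mem δ3 F3 hδ3 x' hx' y' hy' z' hz', rfl⟩)
    d3C := fun x hx y hy z hz x' hx' y' hy' z' hz' => Or.inr
      ⟨_, mem δ3 F3 hδ3 x hx y hy z hz, _, mem δ3 F3 hδ3 x' hx' y' hy' z' hz', rfl⟩ }⟩

end Pool.Agent.Helper83.TM
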