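import Pool.Agent.Helper83.TM.Defs

/-!
# TM-Near: positivity near a type of `F3`

Proof for the third agent (`m.swap` exchanges the first and the third agent; the second agent is
the same computation).  Fix `τ ∈ c.F3` (a type, `c.ty`, and `τ ∈ Nr S c.δ c.F3` by `mem_Nr`).  The
set `{m.C x y τ | x, y ∈ Nr S c.δ c.F3}` is finite: `m.C x y τ = m.C τ τ τ + d` with `d ∈ c.D`
(`c.d3C`), and `c.D` is finite.  All its members are positive at `τ` (`m.pC`), so there is `η > 0`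
with `η ≤ m.C x y τ τ` for all `x, y ∈ Nr ..`.  Put `ρ = η / 3`.  For a type `z` with
`dist z τ < ρ`: `m.C x y z z ≥ m.C x y τ z` (`m.iC`), and `|φ (z - τ)| ≤ ‖z - τ‖ < ρ` for
`φ = m.C x y z` and `φ = m.C x y τ` (`m.bC`).  So
`m.C x y z τ ≥ m.C x y z z - ρ ≥ m.C x y τ z - ρ ≥ m.C x y τ τ - 2 ρ > 0`.
-/

set_option autoImplicit false

open Set Filter Topology

namespace Pool.Agent.Helper83.TM

variable {E : Type*} [NormedAddCommGroup E] [NormedSpace ℝ E] {S : Space E}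

lemma near_lb {α : Type*} {s : Set α} (hs : s.Finite) (f : α → ℝ) :
    ∃ η > 0, ∀ a ∈ s, 0 < f a → η ≤ f a := by
  induction s, hs using Set.Finite.induction_on with
  | empty => exact ⟨1, one_pos, fun a ha => absurd ha (Set.notMem_empty a)⟩
  | @insert a s _ _ ih =>
    obtain ⟨η, h0, h⟩ := ih
    by_cases ha : 0 < f a
    · refine ⟨min η (f a), lt_min h0 ha, fun b hb hb' => ?_⟩
      rcases hb with rfl | hb
      · exact min_le_right _ _
      · exact (min_le_left _ _).trans (h b hb hb')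
    · refine ⟨η, h0, fun b hb hb' => ?_⟩
      rcases hb with rfl | hb
      · exact absurd hb' ha
      · exact h b hb hb'

theorem pos_nearC {m : Mech S} (c : Chain m) {τ : E} (hτ : τ ∈ c.F3) :
    ∃ ρ > 0, ∀ x ∈ Nr S c.δ c.F3, ∀ y ∈ Nr S c.δ c.F3, ∀ z ∈ S.Ty, dist z τ < ρ →
      0 < m.C x y z τ := by
  have hty : τ ∈ S.Ty := c.ty hτ
  have hN : τ ∈ Nr S c.δ c.F3 := mem_Nr c.δ_pos hτ hty
  obtain ⟨η, h0, h⟩ := near_lb c.D_fin (fun d => (m.C τ τ τ + d) τ)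
  refine ⟨η / 3, by positivity, fun x hx y hy z hz hd => ?_⟩
  have h1 : η ≤ m.C x y τ τ := by
    have h2 := h _ (c.d3C x hx y hy τ hN τ hN τ hN τ hN)
    have h3 : m.C τ τ τ + (m.C x y τ - m.C τ τ τ) = m.C x y τ := by abel
    simp only [h3] at h2
    exact h2 (m.pC x y τ hty)
  have h4 := m.iC x y z τ hz
  have h5 := m.bC x y z (z - τ)
  have h6 := m.bC x y τ (z - τ)
  rw [map_sub, ← dist_eq_norm, abs_le] at h5 h6
  linarith [h5.1, h5.2, h6.1, h6.2]

theorem pos_nearB {m : Mech S} (c : Chain m) {τ : E} (hτ : τ ∈ c.F3) :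
    ∃ ρ > 0, ∀ x ∈ Nr S c.δ c.F3, ∀ z ∈ Nr S c.δ c.F3, ∀ y ∈ S.Ty, dist y τ < ρ →
      0 < m.B x y z τ := by
  have hty : τ ∈ S.Ty := c.ty hτ
  have hN : τ ∈ Nr S c.δ c.F3 := mem_Nr c.δ_pos hτ hty
  obtain ⟨η, h0, h⟩ := near_lb c.D_fin (fun d => (m.B τ τ τ + d) τ)
  refine ⟨η / 3, by positivity, fun x hx z hz y hy hd => ?_⟩
  have h1 : η ≤ m.B x τ z τ := by
    have h2 := h _ (c.d3B x hx τ hN z hz τ hN τ hN τ hN)
    have h3 : m.B τ τ τ + (m.B x τ z - m.B τ τ τ) = m.B x τ z := by abel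
    simp only [h3] at h2
    exact h2 (m.pB x τ z hty)
  have h4 := m.iB x y τ z hy
  have h5 := m.bB x y z (y - τ)
  have h6 := m.bB x τ z (y - τ)
  rw [map_sub, ← dist_eq_norm, abs_le] at h5 h6
  linarith [h5.1, h5.2, h6.1, h6.2]

end Pool.Agent.Helper83.TM
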