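import Pool.Agent.Helper83.TM.St.Trans
import Pool.Agent.Helper83.TM.St.Near

/-!
# TM-Loc: the effectiveness of the wall `w` does not change when the first agent moves a little

Write `γ t = seg d z t`.  `γ t ∈ Nr S c.δ c.F2 ⊆ Nr S c.δ c.F3` and `γ t ∈ interior S.Ty` for
`t ∈ Icc 0 1` (`Convex.interior`), `0 < w (γ t)`.  Let `e = γ s`, `0 < w e`.

Neighbourhood `N` of `s`: the intersection of that of `adj_seg` and of the set of the `s'` such that
`2 * |v (γ s')| < w (γ s')` for all `v ∈ c.D` with `v e = 0` (finitely many, continuity; at `s` it is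
`0 < w e`).

Let `s1, s1', s3 ∈ N ∩ Icc 0 1`; if `s1 = s1'` nothing is to be shown.  `a = γ s1`, `b = γ s1'`,
`p = γ s3`.  `adj_seg` gives `v` with `v = 0 ∨ v ∈ c.D`, `v e = 0`, `Adj c.D v b a`.  For every
`x ∈ Nr S c.δ c.F3` and `j ∈ {y', y''}` the functional `m.A b j x - m.A a j x` is in `c.D`
(`c.d3A`), it is `≥ 0` at `b` and `≤ 0` at `a` (`m.iA`), so it is `0` or `v`.

(E) If `q` is a type, `i ∈ {a, b}`, and `σ ∈ S.Ty` satisfies `w σ = S.lam σ` and `0 < m.C i y' q σ`,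
then `m.B i y' q = m.B i y'' q`: otherwise the difference is `w` (as in `Trans`), and
`m.B i y' q σ = w σ + m.B i y'' q σ ≥ S.lam σ`, so `m.C i y' q σ ≤ 0` by `m.sum`, `m.nA`.

Case I: for all `t ∈ Icc 0 1` and `j ∈ {y', y''}`: `m.A b j (seg p τ t) = m.A a j (seg p τ t)`.
`transport` with `v = 0` and `q = τ`: `H` holds as `w (seg p τ t) > 0` (`w τ = S.lam τ > 0`); the
end conditions are (E) with `σ = q = τ` and `m.pC`.

Case II: otherwise `v` is equal to some `m.A b j x - m.A a j x ≠ 0` with `x ∈ seg p τ ⊆ Nr S c.δ c.F2`;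
so `v ∈ c.D2` (`c.d2A`), `v ≠ 0`, `v ∈ c.D`.  Apply `S.tar w v`.
 IIa: some type `τ'` has `w τ' = lam τ'`, `v τ' = 0`; by `c.t3` we may take `τ' ∈ c.F3`.  Use
  `transport` with `q = τ'`.  `H`: `2 |v (x t)| = (1-t) 2 |v p| ` and `w (x t) = (1-t) w p + t lam τ'`,
  so `2 |v (x t)| < w (x t)`; if `i ≠ 0` then `w ≤ |i w| = |j v| ≤ 2 |v| < w`.  (E) with
  `σ = q = τ'` and `m.pC`.
 IIb: `v σ = κ * lam σ` for all types `σ` with `w σ = lam σ`, where `κ = 1` or `κ = -1`.  Put
  `v0 = κ • v` (so `v0 ∈ S.Tri`, `v0 e = 0`, `v0 σ = lam σ` for these `σ`).  `pos_nearC` for `τ` gives `ρ`.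
  For small `θ > 0` the point `e0 = seg τ e θ` has `dist e0 τ < ρ`, is in `interior S.Ty` and in
  `thickening c.δ (convexHull c.F2)`, and `(w - v0) e0 = θ * w e > 0`,
  `(w + v0) e0 = (1 - θ) * 2 * lam τ + θ * w e > 0`.  The set `O` of all points with these
  (open) properties is open and contains `e0`; `Simple c.D p` by `hs`.  `exists_seg` gives `q ∈ O`
  with `Simple c.D (seg p q t)` for all `t`.  At `p` also `(w - v0) p > 0`, `(w + v0) p > 0`, so
  `|v (x t)| < w (x t)` for `x t = seg p q t`, `t ∈ Icc 0 1`.  `H`: if `i ≠ 0` then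
  `|i| w = |j| |v| < |j| w` at `x t`, so `|i| < |j| ≤ 2`: `|i| = 1`, `|j| = 2`.  Since the point is
  simple, `i • w + j • v = k • u`; multiply by `i = ±1`: `w + (i j κ) • v0 = (i k) • u` with
  `i j κ = ± 2`.  `S.ca` gives `w e ≤ v0 e = 0`, contradiction.  (E) with `σ = τ` and `pos_nearC`.
-/

set_option autoImplicit false

open Set Filter Topology

namespace Pool.Agent.Helper83.TM

variable {E : Type*} [NormedAddCommGroup E] [NormedSpace ℝ E] {S : Space E}

/-- if the second agent gets more than the whole mass of `σ` then the third agent gets nothing -/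
theorem lc_end {m : Mech S} {w : E →L[ℝ] ℝ} {i y' y'' q σ : E}
    (hB : m.B i y' q - m.B i y'' q = 0 ∨ m.B i y' q - m.B i y'' q = w) (hσ : σ ∈ S.Ty)
    (hwσ : w σ = S.lam σ) (hC : 0 < m.C i y' q σ) : m.B i y' q = m.B i y'' q := by
  rcases hB with h | h
  · exact sub_eq_zero.1 h
  · exfalso
    have h1 : m.B i y' q σ - m.B i y'' q σ = w σ := by
      rw [← h, _root_.sub_apply]
    have h2 : m.A i y' q σ + m.B i y' q σ + m.C i y' q σ = S.lam σ := by
      rw [← m.sum i y' q, _root_.add_apply, _root_.add_apply]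
    have h3 := m.nA i y' q σ hσ
    have h4 := m.nB i y'' q σ hσ
    linarith

/-- integer coefficients: the small wall cannot compensate the large one -/
theorem lc_int1 {W V : ℝ} (h : 2 * |V| < W) {i j : ℤ} (hj : |j| ≤ 2)
    (h0 : (i : ℝ) * W + (j : ℝ) * V = 0) : i = 0 := by
  by_contra hi
  have hW : 0 < W := by
    have := abs_nonneg V
    linarith
  have h1 : (1 : ℝ) ≤ |(i : ℝ)| := by
    have : (1 : ℤ) ≤ |i| := Int.one_le_abs hi
    exact_mod_cast this
  have h2 : |(j : ℝ)| ≤ 2 := by exact_mod_cast hj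
  have h3 : |(i : ℝ)| * W = |(j : ℝ)| * |V| := by
    have h4 : (i : ℝ) * W = -((j : ℝ) * V) := by linarith
    calc |(i : ℝ)| * W = |(i : ℝ)| * |W| := by rw [abs_of_pos hW]
      _ = |(i : ℝ) * W| := (abs_mul _ _).symm
      _ = |(j : ℝ) * V| := by rw [h4, abs_neg]
      _ = |(j : ℝ)| * |V| := abs_mul _ _
  have h5 : |(j : ℝ)| * |V| ≤ 2 * |V| := mul_le_mul_of_nonneg_right h2 (abs_nonneg _)
  have h6 : W ≤ |(i : ℝ)| * W := by nlinarith
  linarith

theorem lc_int2 {W V : ℝ} (h : |V| < W) {i j : ℤ} (hj : |j| ≤ 2)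
    (h0 : (i : ℝ) * W + (j : ℝ) * V = 0) (hi : i ≠ 0) :
    (i = 1 ∨ i = -1) ∧ (j = 2 ∨ j = -2) := by
  have hW : 0 < W := lt_of_le_of_lt (abs_nonneg V) h
  have h3 : |(i : ℝ)| * W = |(j : ℝ)| * |V| := by
    have h4 : (i : ℝ) * W = -((j : ℝ) * V) := by linarith
    calc |(i : ℝ)| * W = |(i : ℝ)| * |W| := by rw [abs_of_pos hW]
      _ = |(i : ℝ) * W| := (abs_mul _ _).symm
      _ = |(j : ℝ) * V| := by rw [h4, abs_neg]
      _ = |(j : ℝ)| * |V| := abs_mul _ _
  have h1 : (1 : ℤ) ≤ |i| := Int.one_le_abs hi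
  have h1' : (1 : ℝ) ≤ |(i : ℝ)| := by exact_mod_cast h1
  have h7 : |(i : ℝ)| < |(j : ℝ)| := by
    by_contra hc
    push Not at hc
    have h8 : |(j : ℝ)| * |V| ≤ |(i : ℝ)| * |V| := mul_le_mul_of_nonneg_right hc (abs_nonneg _)
    have h9 : |(i : ℝ)| * |V| < |(i : ℝ)| * W := mul_lt_mul_of_pos_left h (by linarith)
    linarith
  have h8 : |i| < |j| := by exact_mod_cast h7
  have h9 : |i| = 1 := by omega
  have h10 : |j| = 2 := by omega
  constructor
  · rcases abs_eq (by norm_num : (0 : ℤ) ≤ 1) |>.1 h9 with h | h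
    · exact Or.inl h
    · exact Or.inr h
  · rcases abs_eq (by norm_num : (0 : ℤ) ≤ 2) |>.1 h10 with h | h
    · exact Or.inl h
    · exact Or.inr h

theorem local_claim {m : Mech S} (c : Chain m) {w : E →L[ℝ] ℝ} (hw : w ∈ c.D1)
    {d z y' y'' τ : E} (hd : d ∈ interior S.Ty) (hd' : d ∈ Nr S c.δ {S.one})
    (hgen : ∀ φ ∈ c.D, φ ≠ 0 → φ d ≠ 0) (hy' : y' ∈ Nr S c.δ c.F1) (hy'' : y'' ∈ Nr S c.δ c.F1)
    (hadj : Adj c.D w y' y'') (hwd : 0 < w d) (hτ : τ ∈ c.F2) (hwτ : w τ = S.lam τ)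
    (hz : z ∈ interior S.Ty) (hz' : z ∈ Nr S c.δ c.F2) (hwz : 0 < w z)
    (hs : ∀ t : ℝ, Simple c.D (seg d z t)) {s : ℝ} (hs1 : s ∈ Icc (0 : ℝ) 1) :
    ∃ N ∈ 𝓝 s, ∀ s1 ∈ N, ∀ s1' ∈ N, ∀ s3 ∈ N, s1 ∈ Icc (0 : ℝ) 1 → s1' ∈ Icc (0 : ℝ) 1 →
      s3 ∈ Icc (0 : ℝ) 1 →
      (m.B (seg d z s1') y' (seg d z s3) = m.B (seg d z s1') y'' (seg d z s3) ↔
        m.B (seg d z s1) y' (seg d z s3) = m.B (seg d z s1) y'' (seg d z s3)) := by
  classical
  have s12 : Nr S c.δ c.F1 ⊆ Nr S c.δ c.F2 := Nr_mono c.s12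
  have s23 : Nr S c.δ c.F2 ⊆ Nr S c.δ c.F3 := Nr_mono c.s23
  have hone : Nr S c.δ {S.one} ⊆ Nr S c.δ c.F2 :=
    Nr_mono (singleton_subset_iff.2 (c.s12 c.one1))
  have hτ3 : τ ∈ c.F3 := c.s23 hτ
  have hτty : τ ∈ S.Ty := c.ty hτ3
  have hτN2 : τ ∈ Nr S c.δ c.F2 := mem_Nr c.δ_pos hτ hτty
  have hγ2 : ∀ t ∈ Icc (0 : ℝ) 1, seg d z t ∈ Nr S c.δ c.F2 := fun t ht =>
    seg_mem (convex_Nr _ _) (hone hd') hz' ht
  have hγi : ∀ t ∈ Icc (0 : ℝ) 1, seg d z t ∈ interior S.Ty := fun t ht =>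
    seg_mem S.conv.interior hd hz ht
  have hγw : ∀ t ∈ Icc (0 : ℝ) 1, 0 < w (seg d z t) := by
    intro t ht
    rw [seg_apply w d z t]
    rcases eq_or_lt_of_le ht.1 with h | h
    · rw [← h]; linarith
    · have h1 := mul_nonneg (sub_nonneg.2 ht.2) hwd.le
      have h2 := mul_pos h hwz
      linarith
  -- the differences of the second agent
  have hB : ∀ i ∈ Nr S c.δ c.F3, ∀ x ∈ Nr S c.δ c.F3,
      m.B i y' x - m.B i y'' x ∈ c.D ∧
        (m.B i y' x - m.B i y'' x = 0 ∨ m.B i y' x - m.B i y'' x = w) := by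
    intro i hi x hx
    have hD := c.d3B i hi y' (s23 (s12 hy')) x hx i hi y'' (s23 (s12 hy'')) x hx
    refine ⟨hD, hadj _ hD ?_ ?_⟩
    · have h := m.iB i y' y'' x (Nr_ty hy')
      rw [_root_.sub_apply]
      linarith
    · have h := m.iB i y'' y' x (Nr_ty hy'')
      rw [_root_.sub_apply]
      linarith
  by_cases hwT : w ∈ S.Tri
  swap
  · refine ⟨univ, Filter.univ_mem, fun s1 _ s1' _ s3 _ h1 h1' h3 => ?_⟩
    have key : ∀ t ∈ Icc (0 : ℝ) 1,
        m.B (seg d z t) y' (seg d z s3) = m.B (seg d z t) y'' (seg d z s3) := by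
      intro t ht
      obtain ⟨hD, h⟩ := hB _ (s23 (hγ2 t ht)) _ (s23 (hγ2 s3 h3))
      rcases h with h | h
      · exact sub_eq_zero.1 h
      · exact absurd (h ▸ c.D_tri hD) hwT
    exact ⟨fun _ => key s1 h1, fun _ => key s1' h1'⟩
  obtain ⟨N, hN, hNadj⟩ := adj_seg c.D_fin hgen hs s
  have hN2 : ∀ᶠ s' in 𝓝 s, ∀ v ∈ c.D, v (seg d z s) = 0 →
      2 * |v (seg d z s')| < w (seg d z s') := by
    rw [Filter.eventually_all_finite c.D_fin]
    intro v _
    by_cases h0 : v (seg d z s) = 0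
    · have hc : Continuous fun s' => w (seg d z s') - 2 * |v (seg d z s')| :=
        (w.continuous.comp (continuous_seg d z)).sub
          (continuous_const.mul (v.continuous.comp (continuous_seg d z)).abs)
      have h1 : 0 < w (seg d z s) - 2 * |v (seg d z s)| := by
        rw [h0, abs_zero, mul_zero, sub_zero]
        exact hγw s hs1
      filter_upwards [hc.continuousAt.eventually_mem (Ioi_mem_nhds h1)] with t ht _
      have ht' : 0 < w (seg d z t) - 2 * |v (seg d z t)| := ht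
      linarith
    · exact Filter.Eventually.of_forall fun t h => absurd h h0
  refine ⟨N ∩ {s' | ∀ v ∈ c.D, v (seg d z s) = 0 → 2 * |v (seg d z s')| < w (seg d z s')},
    Filter.inter_mem hN hN2, fun s1 hs1N s1' hs1'N s3 hs3N h1 h1' h3 => ?_⟩
  by_cases hne : s1' = s1
  · rw [hne]
  obtain ⟨v, hv, hve, hvadj⟩ := hNadj s1' hs1'N.1 s1 hs1N.1 hne
  set a := seg d z s1 with ha_def
  set b := seg d z s1' with hb_def
  set p := seg d z s3 with hp_def
  set e := seg d z s with he_def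
  have ha2 : a ∈ Nr S c.δ c.F2 := hγ2 s1 h1
  have hb2 : b ∈ Nr S c.δ c.F2 := hγ2 s1' h1'
  have hp2 : p ∈ Nr S c.δ c.F2 := hγ2 s3 h3
  have hwp : 0 < w p := hγw s3 h3
  have hwe : 0 < w e := hγw s hs1
  have hei : e ∈ interior S.Ty := hγi s hs1
  have hA : ∀ j ∈ Nr S c.δ c.F3, ∀ x ∈ Nr S c.δ c.F3,
      m.A b j x - m.A a j x ∈ c.D ∧
        (m.A b j x - m.A a j x = 0 ∨ m.A b j x - m.A a j x = v) := by
    intro j hj x hx
    have hD := c.d3A b (s23 hb2) j hj x hx a (s23 ha2) j hj x hx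
    refine ⟨hD, hvadj _ hD ?_ ?_⟩
    · have h := m.iA b a j x (Nr_ty hb2)
      rw [_root_.sub_apply]
      linarith
    · have h := m.iA a b j x (Nr_ty ha2)
      rw [_root_.sub_apply]
      linarith
  have hx3 : ∀ q ∈ Nr S c.δ c.F3, ∀ t ∈ Icc (0 : ℝ) 1, seg p q t ∈ Nr S c.δ c.F3 :=
    fun q hq t ht => seg_mem (convex_Nr _ _) (s23 hp2) hq ht
  by_cases hI : ∀ t ∈ Icc (0 : ℝ) 1, m.A b y' (seg p τ t) = m.A a y' (seg p τ t) ∧
      m.A b y'' (seg p τ t) = m.A a y'' (seg p τ t)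
  · -- Case I
    refine transport c (v := 0) (q := τ) (s23 ha2) (s23 hb2) (s23 (s12 hy')) (s23 (s12 hy''))
      (s23 hp2) (s23 hτN2) hadj (fun t ht => Or.inl (sub_eq_zero.2 (hI t ht).1))
      (fun t ht => Or.inl (sub_eq_zero.2 (hI t ht).2)) ?_ ?_ ?_
    · intro t ht i j hi hj h0 _
      rw [_root_.zero_apply, mul_zero, add_zero] at h0
      have hpos : 0 < w (seg p τ t) := by
        rw [seg_apply, hwτ]
        have hl := S.lam_pos τ hτty
        rcases eq_or_lt_of_le ht.1 with h | h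
        · rw [← h]; linarith
        · have h1 := mul_nonneg (sub_nonneg.2 ht.2) hwp.le
          have h2 := mul_pos h hl
          linarith
      rcases mul_eq_zero.1 h0 with h | h
      · exact_mod_cast h
      · exact absurd h hpos.ne'
    · exact lc_end (hB a (s23 ha2) τ (s23 hτN2)).2 hτty hwτ (m.pC a y' τ hτty)
    · exact lc_end (hB b (s23 hb2) τ (s23 hτN2)).2 hτty hwτ (m.pC b y' τ hτty)
  · -- Case II
    have hII : v ∈ c.D2 ∧ v ∈ c.D ∧ v ≠ 0 := by
      push Not at hI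
      obtain ⟨t, ht, h⟩ := hI
      have hx2 : seg p τ t ∈ Nr S c.δ c.F2 := seg_mem (convex_Nr _ _) hp2 hτN2 ht
      have hj : ∃ j ∈ Nr S c.δ c.F2, m.A b j (seg p τ t) - m.A a j (seg p τ t) ≠ 0 := by
        by_cases h' : m.A b y' (seg p τ t) = m.A a y' (seg p τ t)
        · exact ⟨y'', s12 hy'', sub_ne_zero.2 (h h')⟩
        · exact ⟨y', s12 hy', sub_ne_zero.2 h'⟩
      obtain ⟨j, hj2, hj0⟩ := hj
      obtain ⟨hD, h'⟩ := hA j (s23 hj2) _ (s23 hx2)
      have hv' : m.A b j (seg p τ t) - m.A a j (seg p τ t) = v := by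
        rcases h' with h' | h'
        · exact absurd h' hj0
        · exact h'
      refine ⟨?_, ?_, ?_⟩
      · rw [← hv']
        exact c.d2A b hb2 j hj2 _ hx2 a ha2 j hj2 _ hx2
      · rw [← hv']
        exact hD
      · rw [← hv']
        exact hj0
    obtain ⟨hvD2, hvD, hv0⟩ := hII
    have hvT : v ∈ S.Tri := c.D_tri hvD
    have hvp : 2 * |v p| < w p := hs3N.2 v hvD hve
    by_cases htar : ∃ σ ∈ S.Ty, w σ = S.lam σ ∧ v σ = 0
    · -- Case IIa
      obtain ⟨σ, hσ, hwσ, hvσ⟩ := c.t3 w hw v hvD2 htar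
      have hσty : σ ∈ S.Ty := c.ty hσ
      have hσN : σ ∈ Nr S c.δ c.F3 := mem_Nr c.δ_pos hσ hσty
      refine transport c (v := v) (q := σ) (s23 ha2) (s23 hb2) (s23 (s12 hy'))
        (s23 (s12 hy'')) (s23 hp2) hσN hadj (fun t ht => (hA _ (s23 (s12 hy')) _ (hx3 σ hσN t ht)).2)
        (fun t ht => (hA _ (s23 (s12 hy'')) _ (hx3 σ hσN t ht)).2) ?_ ?_ ?_
      · intro t ht i j hi hj h0 _
        refine lc_int1 ?_ hj h0
        rw [seg_apply v p σ t, seg_apply w p σ t, hwσ, hvσ, mul_zero, add_zero, abs_mul,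
          abs_of_nonneg (sub_nonneg.2 ht.2)]
        have hl := S.lam_pos σ hσty
        rcases eq_or_lt_of_le ht.1 with h | h
        · rw [← h]; linarith
        · have h1 := mul_nonneg (sub_nonneg.2 ht.2) (sub_nonneg.2 hvp.le)
          have h2 := mul_pos h hl
          nlinarith
      · exact lc_end (hB a (s23 ha2) σ hσN).2 hσty hwσ (m.pC a y' σ hσty)
      · exact lc_end (hB b (s23 hb2) σ hσN).2 hσty hwσ (m.pC b y' σ hσty)
    · -- Case IIb
      obtain ⟨κ, v0, hκ, hvκ, hv0T, hv0⟩ : ∃ (κ : ℝ) (v0 : E →L[ℝ] ℝ), (κ = 1 ∨ κ = -1) ∧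
          v = κ • v0 ∧ v0 ∈ S.Tri ∧ ∀ σ ∈ S.Ty, w σ = S.lam σ → v0 σ = S.lam σ := by
        rcases S.tar w hwT v hvT with h | h | h
        · exact absurd h htar
        · exact ⟨1, v, Or.inl rfl, by rw [one_smul], hvT, h⟩
        · refine ⟨-1, -v, Or.inr rfl, by simp, S.neg v hvT, ?_⟩
          intro σ hσ hwσ
          rw [_root_.neg_apply, h σ hσ hwσ, neg_neg]
      have hκ0 : κ * κ = 1 := by
        rcases hκ with h | h <;> rw [h] <;> norm_num
      have hκa : |κ| = 1 := by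
        rcases hκ with h | h <;> rw [h] <;> norm_num
      have hv0v : ∀ x, |v x| = |v0 x| := by
        intro x
        rw [hvκ, _root_.smul_apply, smul_eq_mul, abs_mul, hκa, one_mul]
      have hv0e : v0 e = 0 := by
        have h4 := hv0v e
        rw [hve, abs_zero] at h4
        exact abs_eq_zero.1 h4.symm
      have hv0p : |v0 p| < w p := by
        rw [← hv0v]
        have := abs_nonneg (v p)
        linarith
      obtain ⟨ρ, hρ, hpos⟩ := pos_nearC c hτ3
      set O : Set E := interior S.Ty ∩ (Metric.ball τ ρ ∩ (Metric.ball τ c.δ ∩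
        ({x | 0 < (w - v0) x} ∩ {x | 0 < (w + v0) x}))) with hO_def
      have hO : IsOpen O :=
        isOpen_interior.inter (Metric.isOpen_ball.inter (Metric.isOpen_ball.inter
          ((isOpen_lt continuous_const (w - v0).continuous).inter
            (isOpen_lt continuous_const (w + v0).continuous))))
      have hlτ := S.lam_pos τ hτty
      have hOne : O.Nonempty := by
        have hc := continuous_seg τ e
        have hPo : IsOpen (Metric.ball τ ρ ∩ Metric.ball τ c.δ) :=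
          Metric.isOpen_ball.inter Metric.isOpen_ball
        have h1 : ∀ᶠ θ in 𝓝[>] (0 : ℝ), seg τ e θ ∈ Metric.ball τ ρ ∩ Metric.ball τ c.δ := by
          refine nhdsWithin_le_nhds (hc.continuousAt.eventually (hPo.mem_nhds ?_))
          rw [seg_zero]
          exact ⟨Metric.mem_ball_self hρ, Metric.mem_ball_self c.δ_pos⟩
        have h2 : ∀ᶠ θ in 𝓝[>] (0 : ℝ), θ ∈ Ioc (0 : ℝ) 1 := Ioc_mem_nhdsGT (by norm_num)
        obtain ⟨θ, h3, h4⟩ := (h1.and h2).exists
        refine ⟨seg τ e θ, ?_, h3.1, h3.2, ?_, ?_⟩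
        · exact S.conv.combo_self_interior_mem_interior hτty hei (by linarith [h4.2]) h4.1
            (by ring)
        · show 0 < (w - v0) (seg τ e θ)
          rw [seg_apply, _root_.sub_apply, _root_.sub_apply, hwτ, hv0 τ hτty hwτ, hv0e]
          have := mul_pos h4.1 hwe
          linarith
        · show 0 < (w + v0) (seg τ e θ)
          rw [seg_apply, _root_.add_apply, _root_.add_apply, hwτ, hv0 τ hτty hwτ, hv0e]
          have h5 := mul_pos h4.1 hwe
          have h6 := mul_nonneg (sub_nonneg.2 h4.2) (add_pos hlτ hlτ).le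
          linarith
      obtain ⟨q, hqO, hsq⟩ := exists_seg (S := S) c.D_fin c.D_tri (hs s3) hO hOne
      obtain ⟨hqi, hqρ, hqδ, hq1, hq2⟩ := hqO
      have hqty : q ∈ S.Ty := interior_subset hqi
      have hqN : q ∈ Nr S c.δ c.F3 := mem_Nr_of_dist hτ3 hqty hqδ
      have hpa := abs_lt.1 hv0p
      have hq1' : 0 < w q - v0 q := hq1
      have hq2' : 0 < w q + v0 q := hq2
      refine transport c (v := v) (q := q) (s23 ha2) (s23 hb2) (s23 (s12 hy'))
        (s23 (s12 hy'')) (s23 hp2) hqN hadj (fun t ht => (hA _ (s23 (s12 hy')) _ (hx3 q hqN t ht)).2)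
        (fun t ht => (hA _ (s23 (s12 hy'')) _ (hx3 q hqN t ht)).2) ?_ ?_ ?_
      · intro t ht i j hi hj h0 hS
        by_contra hi0
        have hlt : |v (seg p q t)| < w (seg p q t) := by
          rw [hv0v, abs_lt, seg_apply v0 p q t, seg_apply w p q t]
          have k1 := sub_nonneg.2 ht.2
          have k2 := ht.1
          constructor
          · rcases eq_or_lt_of_le ht.1 with h | h
            · rw [← h]; linarith
            · have h5 := mul_nonneg k1 (by linarith : 0 ≤ w p + v0 p)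
              have h6 := mul_pos h hq2'
              nlinarith
          · rcases eq_or_lt_of_le ht.1 with h | h
            · rw [← h]; linarith
            · have h5 := mul_nonneg k1 (by linarith : 0 ≤ w p - v0 p)
              have h6 := mul_pos h hq1'
              nlinarith
        obtain ⟨hi1, hj1⟩ := lc_int2 hlt hj h0 hi0
        obtain ⟨u, hu, k, hk⟩ := hS (hsq t)
        have hii : (i : ℝ) * (i : ℝ) = 1 := by
          rcases hi1 with h | h <;> rw [h] <;> norm_num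
        have hκ2 : (i : ℝ) * (j : ℝ) * κ = 2 ∨ (i : ℝ) * (j : ℝ) * κ = -2 := by
          rcases hi1 with h | h <;> rcases hj1 with h' | h' <;> rcases hκ with h'' | h'' <;>
            rw [h, h', h''] <;> norm_num
        have heq : w + ((i : ℝ) * (j : ℝ) * κ) • v0 = ((i : ℝ) * k) • u := by
          have h5 : (i : ℝ) • ((i : ℝ) • w + (j : ℝ) • v) = (i : ℝ) • (k • u) := by rw [hk]
          rw [hvκ] at h5
          have h6 : (i : ℝ) • ((i : ℝ) • w + (j : ℝ) • κ • v0) =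
              ((i : ℝ) * (i : ℝ)) • w + ((i : ℝ) * (j : ℝ) * κ) • v0 := by module
          rw [h6, hii, one_smul] at h5
          rw [h5]
          module
        have hfin := S.ca w hwT v0 hv0T u hu ⟨τ, hτty, hwτ⟩ hv0 _ _ hκ2 heq e
          (interior_subset hei)
        linarith
      · exact lc_end (hB a (s23 ha2) q hqN).2 hτty hwτ
          (hpos a (s23 ha2) y' (s23 (s12 hy')) q hqty hqρ)
      · exact lc_end (hB b (s23 hb2) q hqN).2 hτty hwτ
          (hpos b (s23 hb2) y' (s23 (s12 hy')) q hqty hqρ)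

end Pool.Agent.Helper83.TM
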