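import Pool.Agent.Helper83.TM.Defs

/-!
# TM-Gen: generic points and segments

* `exists_generic`: induction on the finite set `D`.  For `insert φ D` take `x ∈ O` good for `D`,
  the set `O ∩ {x | ∀ ψ ∈ D, ψ ≠ 0 → ψ x ≠ 0}` is open (finite intersection) and contains `x`;
  if `φ ≠ 0` there is `v` with `φ v ≠ 0`, and `x + t v` for small `t` (`t = 0` or `t ≠ 0`) works.
* `exists_seg`: apply `exists_generic` to the finite set of the functionals
  `(w' c) • w - (w c) • w'` (`w, w' ∈ D`) and `O`.  Let `z` be the point found and `x = seg c z t`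
  a point with `w x = 0 = w' x`, `w, w' ≠ 0` in `D`, and suppose `w' ≠ w`, `w' ≠ -w`.  If the
  functional `(w' c) • w - (w c) • w'` is zero, then `(w' c) • w = (w c) • w'`; if `w' c ≠ 0` then
  `S.par` gives `w' = w ∨ w' = -w`, contradiction; if `w' c = 0`, then `(w c) • w' = 0`, so
  `w c = 0`, and `Simple D c` gives the contradiction.  Otherwise it is not zero at `z`, and
  `0 = (w' c) * w x - (w c) * w' x = t * ((w' c) * w z - (w c) * w' z)` (by `seg_apply`), so
  `t = 0`, `x = c` and `Simple D c` gives the contradiction.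
* `zero_seg`: near `seg p q s` the (finitely many) `u ∈ D` with `u (seg p q s) ≠ 0` keep their
  sign (`Filter.eventually_all_finite`, `continuous_seg`, continuity of `u`).
* `adj_seg`: take the neighbourhood of `zero_seg`.  If no `u ≠ 0` in `D` satisfies `0 ≤ u (seg s')`,
  `u (seg s'') ≤ 0` take `v = 0`.  Otherwise let `v` be one of them, `v (seg s) = 0`.  Any other
  such `u` satisfies `u (seg s) = 0`, so `u = v ∨ u = -v` by `hs s`.  If `u = -v` then
  `v (seg s') = 0 = v (seg s'')`, `s' ≠ s''`, and as `t ↦ v (seg t)` is affine it is zero at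
  `t = 0`: `v p = 0`, contradiction with `hp`.
* `const_of_local`: `Icc 0 1` is preconnected; `g` is continuous on it for the discrete topology
  on `β` (`isPreconnected_Icc`, `IsPreconnected.constant`).
-/

set_option autoImplicit false

open Set Filter Topology

namespace Pool.Agent.Helper83.TM

variable {E : Type*} [NormedAddCommGroup E] [NormedSpace ℝ E] {S : Space E}

theorem exists_generic {D : Set (E →L[ℝ] ℝ)} (hD : D.Finite) {O : Set E} (hO : IsOpen O)
    (hne : O.Nonempty) : ∃ x ∈ O, ∀ φ ∈ D, φ ≠ 0 → φ x ≠ 0 := by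
  induction D, hD using Set.Finite.induction_on with
  | empty =>
    obtain ⟨x, hx⟩ := hne
    exact ⟨x, hx, by simp⟩
  | @insert φ D _ hDf ih =>
    obtain ⟨x, hx, hgood⟩ := ih
    by_cases hφx : φ = 0 ∨ φ x ≠ 0
    · refine ⟨x, hx, fun ψ hψ h0 => ?_⟩
      rcases hψ with rfl | hψ
      · rcases hφx with h | h
        · exact absurd h h0
        · exact h
      · exact hgood ψ hψ h0
    · push Not at hφx
      obtain ⟨hφ0, hφx⟩ := hφx
      obtain ⟨v, hv⟩ : ∃ v, φ v ≠ 0 := by
        by_contra h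
        push Not at h
        exact hφ0 (ContinuousLinearMap.ext h)
      have hc : Continuous fun t : ℝ => x + t • v := by fun_prop
      have h1 : ∀ᶠ t in 𝓝 (0 : ℝ), x + t • v ∈ O :=
        hc.continuousAt.eventually_mem (hO.mem_nhds (by simpa using hx))
      have h2 : ∀ᶠ t in 𝓝 (0 : ℝ), ∀ ψ ∈ D, ψ ≠ 0 → ψ (x + t • v) ≠ 0 := by
        rw [Filter.eventually_all_finite hDf]
        intro ψ hψ
        by_cases h0 : ψ = 0
        · exact Filter.Eventually.of_forall fun t h => absurd h0 h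
        · have h3 : ψ (x + (0 : ℝ) • v) ≠ 0 := by simpa using hgood ψ hψ h0
          filter_upwards [(ψ.continuous.comp hc).continuousAt.eventually_ne h3] with t ht _ using ht
      have h4 : ∀ᶠ t in 𝓝[≠] (0 : ℝ), (x + t • v ∈ O ∧ ∀ ψ ∈ D, ψ ≠ 0 → ψ (x + t • v) ≠ 0) ∧
          t ≠ 0 :=
        ((h1.and h2).filter_mono nhdsWithin_le_nhds).and self_mem_nhdsWithin
      obtain ⟨t, ⟨ht1, ht2⟩, ht3⟩ := h4.exists
      refine ⟨x + t • v, ht1, fun ψ hψ h0 => ?_⟩
      rcases hψ with rfl | hψ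
      · rw [map_add, map_smul, hφx, zero_add, smul_eq_mul]
        exact mul_ne_zero ht3 hv
      · exact ht2 ψ hψ h0

theorem exists_seg {D : Set (E →L[ℝ] ℝ)} (hD : D.Finite) (hT : D ⊆ S.Tri) {c : E}
    (hc : Simple D c) {O : Set E} (hO : IsOpen O) (hne : O.Nonempty) :
    ∃ z ∈ O, ∀ t : ℝ, Simple D (seg c z t) := by
  obtain ⟨z, hz, hgen⟩ := exists_generic
    (D := image2 (fun w w' : E →L[ℝ] ℝ => (w' c) • w - (w c) • w') D D) (hD.image2 _ hD) hO hne
  refine ⟨z, hz, fun t w hw w' hw' h0 h0' hx hx' => ?_⟩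
  by_cases hψ : (w' c) • w - (w c) • w' = 0
  · by_cases hc' : w' c = 0
    · have h1 : w c = 0 := by
        rw [hc', zero_smul, zero_sub, neg_eq_zero] at hψ
        rcases smul_eq_zero.1 hψ with h | h
        · exact h
        · exact absurd h h0'
      exact hc w hw w' hw' h0 h0' h1 hc'
    · exact S.par w (hT hw) w' (hT hw') h0 h0' (w' c) (w c) hc' (sub_eq_zero.1 hψ)
  · have h1 := hgen _ (mem_image2_of_mem hw hw') hψ
    rw [seg_apply] at hx hx'
    have h2 : t * (w' c * w z - w c * w' z) = 0 := by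
      linear_combination (w' c) * hx - (w c) * hx'
    have h3 : w' c * w z - w c * w' z ≠ 0 := by simpa using h1
    have ht : t = 0 := by
      rcases mul_eq_zero.1 h2 with h | h
      · exact h
      · exact absurd h h3
    subst ht
    have h4 : w c = 0 := by linarith
    have h5 : w' c = 0 := by linarith
    exact hc w hw w' hw' h0 h0' h4 h5

theorem zero_seg {D : Set (E →L[ℝ] ℝ)} (hD : D.Finite) (p q : E) (s : ℝ) :
    ∃ N ∈ 𝓝 s, ∀ s' ∈ N, ∀ s'' ∈ N, ∀ u ∈ D, 0 ≤ u (seg p q s') → u (seg p q s'') ≤ 0 →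
      u (seg p q s) = 0 := by
  have h : ∀ᶠ s' in 𝓝 s, ∀ u ∈ D, u (seg p q s) ≠ 0 → 0 < u (seg p q s') * u (seg p q s) := by
    rw [Filter.eventually_all_finite hD]
    intro u _
    by_cases h0 : u (seg p q s) = 0
    · exact Filter.Eventually.of_forall fun t h => absurd h0 h
    · have hc : Continuous fun s' => u (seg p q s') * u (seg p q s) :=
        (u.continuous.comp (continuous_seg p q)).mul continuous_const
      have h1 : 0 < u (seg p q s) * u (seg p q s) := mul_self_pos.2 h0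
      filter_upwards [hc.continuousAt.eventually_mem (Ioi_mem_nhds h1)] with t ht _ using ht
  refine ⟨_, h, fun s' hs' s'' hs'' u hu h1 h2 => ?_⟩
  by_contra h0
  have h3 := hs' u hu h0
  have h4 := hs'' u hu h0
  have h5 : 0 < u (seg p q s) := by
    by_contra h6
    exact absurd h3 (not_lt.2 (mul_nonpos_of_nonneg_of_nonpos h1 (not_lt.1 h6)))
  nlinarith

theorem adj_seg {D : Set (E →L[ℝ] ℝ)} (hD : D.Finite) {p q : E}
    (hp : ∀ φ ∈ D, φ ≠ 0 → φ p ≠ 0) (hs : ∀ t : ℝ, Simple D (seg p q t)) (s : ℝ) :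
    ∃ N ∈ 𝓝 s, ∀ s' ∈ N, ∀ s'' ∈ N, s' ≠ s'' → ∃ v : E →L[ℝ] ℝ, (v = 0 ∨ v ∈ D) ∧
      v (seg p q s) = 0 ∧ Adj D v (seg p q s') (seg p q s'') := by
  obtain ⟨N, hN, hz⟩ := zero_seg hD p q s
  refine ⟨N, hN, fun s' hs' s'' hs'' hne => ?_⟩
  by_cases h : ∃ v ∈ D, v ≠ 0 ∧ 0 ≤ v (seg p q s') ∧ v (seg p q s'') ≤ 0
  · obtain ⟨v, hv, hv0, hv1, hv2⟩ := h
    have hvs := hz s' hs' s'' hs'' v hv hv1 hv2
    refine ⟨v, Or.inr hv, hvs, fun u hu hu1 hu2 => ?_⟩
    by_cases hu0 : u = 0
    · exact Or.inl hu0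
    have hus := hz s' hs' s'' hs'' u hu hu1 hu2
    rcases hs s v hv u hu hv0 hu0 hvs hus with h1 | h1
    · exact Or.inr h1
    · exfalso
      rw [h1, neg_apply] at hu1 hu2
      have e1 : v (seg p q s') = 0 := by linarith
      have e2 : v (seg p q s'') = 0 := by linarith
      rw [seg_apply] at e1 e2
      have e3 : (s' - s'') * (v q - v p) = 0 := by linear_combination e1 - e2
      have e4 : v q = v p := by
        rcases mul_eq_zero.1 e3 with h2 | h2
        · exact absurd (sub_eq_zero.1 h2) hne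
        · exact sub_eq_zero.1 h2
      apply hp v hv hv0
      rw [e4] at e1
      linarith
  · push Not at h
    refine ⟨0, Or.inl rfl, by simp, fun u hu hu1 hu2 => ?_⟩
    by_cases hu0 : u = 0
    · exact Or.inl hu0
    · exact absurd hu2 (not_le.2 (h u hu hu0 hu1))

theorem const_of_local {β : Type*} (g : ℝ → β)
    (h : ∀ s ∈ Icc (0 : ℝ) 1, ∃ N ∈ 𝓝 s, ∀ s' ∈ N, ∀ s'' ∈ N, s' ∈ Icc (0 : ℝ) 1 →
      s'' ∈ Icc (0 : ℝ) 1 → g s' = g s'') : g 0 = g 1 := by
  let _ : TopologicalSpace β := ⊥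
  have _ : DiscreteTopology β := ⟨rfl⟩
  have hc : ContinuousOn g (Icc (0 : ℝ) 1) := by
    intro s hs
    obtain ⟨N, hN, h1⟩ := h s hs
    have h2 : g =ᶠ[𝓝[Icc (0 : ℝ) 1] s] fun _ => g s := by
      filter_upwards [nhdsWithin_le_nhds hN, self_mem_nhdsWithin] with t ht ht'
      exact h1 t ht s (mem_of_mem_nhds hN) ht' hs
    exact (continuousWithinAt_const (b := g s)).congr_of_eventuallyEq h2 rfl
  exact (isPreconnected_Icc (a := (0 : ℝ)) (b := 1)).constant hc (by simp) (by simp)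

end Pool.Agent.Helper83.TM
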