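import Pool.Agent.Helper83.TM.Step

/-!
# TM-SpB: densities of the step function space

Proofs.

* `mem_TyS`: `IsDensity (co x)` is nonnegativity, `IsStep (co x)` (always true) and `0 < ∫ co x`.
* `conv_S`, `lam_pos_S`, `neg_S`: direct.
* `one_int_S`: the ball of radius `1/2` around `one` consists of functions `≥ 1/2`
  (`abs_co_le (x - one)`).
* `gpos_S`: `w = fn f`; `0 < ∫ f x` with `x ≥ 0` forces `{f = 1}` to have positive measure
  (otherwise `f x ≤ 0` a.e.); take `τ` = indicator of `{f = 1}` (`IsStep.map` with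
  `a ↦ if a = 1 then 1 else 0`), `f τ = τ`.
* `tar_S`: `w = fn f`, `v = fn g`.  If `{f = 1, g = 0}` has positive measure take its indicator.
  Otherwise, if both `{f = 1, g = 1}` and `{f = 1, g = -1}` have positive measure, take
  `τ = b · 1_{f=1,g=1} + a · 1_{f=1,g=-1}` with `a, b` the two measures: `∫ g τ = b a - a b = 0`.
  Otherwise `g = 1` a.e. on `{f = 1}` or `g = -1` a.e. on `{f = 1}`; and `w τ = fn one τ` means
  `∫ (1 - f) τ = 0` with `(1 - f) τ ≥ 0`, so `τ = 0` a.e. outside `{f = 1}`, which gives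
  `g τ = τ` a.e. resp. `g τ = -τ` a.e.
-/

set_option autoImplicit false

open MeasureTheory Set Filter Topology

namespace Pool.Agent.Helper83.TM

open Pool.Agent.Helper83.Cake

lemma spb_one (x : stepSub) : fn one x = ∫ u, co x u := by
  rw [fn_apply]
  congr 1
  funext u
  show (1 : ℝ) * co x u = co x u
  rw [one_mul]

lemma spb_int (x : stepSub) : Integrable (co x) (volume : Measure unitInterval) := by
  have := integrable_mul one x
  refine this.congr (ae_of_all _ fun u => ?_)
  show (1 : ℝ) * co x u = co x u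
  rw [one_mul]

lemma mem_TyS {x : stepSub} : x ∈ TyS ↔ (∀ u, 0 ≤ co x u) ∧ 0 < ∫ u, co x u :=
  ⟨fun h => ⟨h.nonneg, h.pos⟩, fun h => ⟨h.1, isStep_co x, h.2⟩⟩

lemma conv_S : Convex ℝ TyS := by
  intro x hx y hy a b ha hb hab
  rw [mem_TyS] at hx hy ⊢
  have hco : ∀ u, co (a • x + b • y) u = a * co x u + b * co y u := fun u => rfl
  refine ⟨fun u => ?_, ?_⟩
  · rw [hco]
    have h1 := mul_nonneg ha (hx.1 u)
    have h2 := mul_nonneg hb (hy.1 u)
    linarith
  · have h : ∫ u, co (a • x + b • y) u = a * (∫ u, co x u) + b * ∫ u, co y u := by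
      rw [← integral_const_mul, ← integral_const_mul, ← integral_add
        ((spb_int x).const_mul a) ((spb_int y).const_mul b)]
      rfl
    rw [h]
    rcases ha.lt_or_eq with h1 | h1
    · have h2 := mul_pos h1 hx.2
      have h3 := mul_nonneg hb hy.2.le
      linarith
    · have hb1 : b = 1 := by rw [← h1] at hab; linarith
      rw [← h1, hb1]
      have := hy.2
      linarith

lemma one_int_S : one ∈ interior TyS := by
  rw [mem_interior_iff_mem_nhds, Metric.mem_nhds_iff]
  refine ⟨1 / 2, by norm_num, fun x hx => ?_⟩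
  rw [Metric.mem_ball, dist_eq_norm] at hx
  have h1 : ∀ u, (1 / 2 : ℝ) ≤ co x u := by
    intro u
    have h2 := abs_co_le (x - one) u
    rw [co_sub] at h2
    have h3 : co one u = 1 := rfl
    rw [h3] at h2
    have h4 := abs_le.mp (h2.trans hx.le)
    linarith [h4.1]
  rw [mem_TyS]
  refine ⟨fun u => by linarith [h1 u], ?_⟩
  have h5 : ∫ _ : unitInterval, (1 / 2 : ℝ) = 1 / 2 := by
    rw [integral_const]
    simp
  have h6 : ∫ _ : unitInterval, (1 / 2 : ℝ) ≤ ∫ u, co x u :=
    integral_mono (integrable_const _) (spb_int x) h1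
  rw [h5] at h6
  linarith

lemma lam_pos_S : ∀ x ∈ TyS, 0 < fn one x := by
  intro x hx
  rw [spb_one]
  exact (mem_TyS.mp hx).2

lemma neg_S : ∀ w ∈ TriS, -w ∈ TriS := by
  rintro w ⟨f, hf, rfl⟩
  refine ⟨-f, fun u => ?_, ?_⟩
  · rw [co_neg]
    rcases hf u with h | h | h <;> rw [h]
    · left; norm_num
    · right; right; rfl
    · right; left; norm_num
  · ext x
    rw [neg_apply, fn_apply, fn_apply, ← integral_neg]
    congr 1
    funext u
    rw [co_neg]
    ring

/-- the element of the space given by an indicator of a condition on two step functions -/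
lemma spb_ind (f g : stepSub) (P : ℝ → ℝ → Prop)
    (h : ∃ᶠ u in ae (volume : Measure unitInterval), P (co f u) (co g u)) :
    ∃ τ : stepSub, (∀ u, 0 ≤ co τ u) ∧ (∀ u, P (co f u) (co g u) → co τ u = 1) ∧
      (∀ u, ¬ P (co f u) (co g u) → co τ u = 0) ∧ 0 < ∫ u, co τ u := by
  classical
  have hstep : IsStep (fun x => if P (co f x) (co g x) then (1 : ℝ) else 0) :=
    (isStep_co f).map₂ (isStep_co g) (fun a b => if P a b then (1 : ℝ) else 0)
  set τ : stepSub := mkS _ hstep with hτ
  have hco : ∀ x, co τ x = if P (co f x) (co g x) then (1 : ℝ) else 0 := fun x => rfl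
  have hnn : ∀ x, 0 ≤ co τ x := by
    intro x; rw [hco]; split_ifs <;> norm_num
  refine ⟨τ, hnn, fun u hu => by rw [hco, if_pos hu], fun u hu => by rw [hco, if_neg hu], ?_⟩
  have h0 : 0 ≤ ∫ x, co τ x := integral_nonneg hnn
  rcases h0.lt_or_eq with h3 | h3
  · exact h3
  · exfalso
    have h4 := (integral_eq_zero_iff_of_nonneg hnn (spb_int τ)).mp h3.symm
    apply h
    filter_upwards [h4] with x hx h5
    have h7 : co τ x = 0 := hx
    rw [hco, if_pos h5] at h7
    exact one_ne_zero h7

lemma gpos_S : ∀ w ∈ TriS, ∀ x ∈ TyS, 0 < w x → ∃ τ ∈ TyS, w τ = fn one τ := by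
  rintro w ⟨f, hf, rfl⟩ x hx h
  rw [mem_TyS] at hx
  have hfr : ∃ᶠ u in ae (volume : Measure unitInterval), co f u = 1 := by
    intro hcon
    have h1 : fn f x ≤ 0 := by
      rw [fn_apply]
      refine integral_nonpos_of_ae ?_
      filter_upwards [hcon] with u hu
      show co f u * co x u ≤ 0
      have h2 := hx.1 u
      rcases hf u with h3 | h3 | h3
      · rw [h3]; linarith
      · exact absurd h3 hu
      · rw [h3]; linarith
    linarith
  obtain ⟨τ, h0, h1, h2, h3⟩ := spb_ind f f (fun a _ => a = 1) hfr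
  refine ⟨τ, mem_TyS.mpr ⟨h0, h3⟩, ?_⟩
  rw [spb_one, fn_apply]
  congr 1
  funext u
  by_cases h4 : co f u = 1
  · rw [h4, one_mul]
  · rw [h2 u h4, mul_zero]

/-- a density on which `w` is the whole mass is carried by `{f = 1}` -/
lemma spb_supp {f τ : stepSub} (hf : ∀ u, co f u = 0 ∨ co f u = 1 ∨ co f u = -1) (hτ : τ ∈ TyS)
    (h : fn f τ = fn one τ) : ∀ᵐ u ∂(volume : Measure unitInterval), co f u = 1 ∨ co τ u = 0 := by
  rw [spb_one, fn_apply] at h
  rw [mem_TyS] at hτ
  have hle : ∀ x, co f x ≤ 1 := by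
    intro x
    rcases hf x with h4 | h4 | h4 <;> rw [h4] <;> norm_num
  have hnn : ∀ x, 0 ≤ (co τ x - co f x * co τ x) := by
    intro x
    have h1 := hle x
    have h5 := hτ.1 x
    nlinarith
  have hi : Integrable (fun x => co τ x - co f x * co τ x)
      (volume : Measure unitInterval) := (spb_int τ).sub (integrable_mul f τ)
  have h4 : ∫ x, (co τ x - co f x * co τ x) = 0 := by
    rw [integral_sub (spb_int τ) (integrable_mul f τ), h, sub_self]
  have h5 := (integral_eq_zero_iff_of_nonneg hnn hi).mp h4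
  filter_upwards [h5] with x hx
  have h7 : co τ x - co f x * co τ x = 0 := hx
  have h8 : (1 - co f x) * co τ x = 0 := by linarith
  rcases mul_eq_zero.mp h8 with h9 | h9
  · left; linarith
  · right; exact h9

lemma tar_S : ∀ w ∈ TriS, ∀ v ∈ TriS, (∃ τ ∈ TyS, w τ = fn one τ ∧ v τ = 0) ∨
    (∀ τ ∈ TyS, w τ = fn one τ → v τ = fn one τ) ∨
    (∀ τ ∈ TyS, w τ = fn one τ → v τ = - fn one τ) := by
  rintro w ⟨f, hf, rfl⟩ v ⟨g, hg, rfl⟩
  by_cases hz : ∃ᶠ u in ae (volume : Measure unitInterval), (co f u = 1 ∧ co g u = 0)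
  · left
    obtain ⟨τ, h0, h1, h2, h3⟩ := spb_ind f g (fun a b => a = 1 ∧ b = 0) hz
    refine ⟨τ, mem_TyS.mpr ⟨h0, h3⟩, ?_, ?_⟩
    · rw [spb_one, fn_apply]
      congr 1
      funext u
      by_cases h4 : co f u = 1 ∧ co g u = 0
      · rw [h4.1, one_mul]
      · rw [h2 u h4, mul_zero]
    · rw [fn_apply]
      have : (fun u => co g u * co τ u) = fun _ => (0 : ℝ) := by
        funext u
        by_cases h4 : co f u = 1 ∧ co g u = 0
        · rw [h4.2, zero_mul]
        · rw [h2 u h4, mul_zero]
      rw [this, integral_zero]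
  by_cases hp : ∃ᶠ u in ae (volume : Measure unitInterval), (co f u = 1 ∧ co g u = 1)
  · by_cases hm : ∃ᶠ u in ae (volume : Measure unitInterval), (co f u = 1 ∧ co g u = -1)
    · left
      obtain ⟨σ, p0, p1, p2, p3⟩ := spb_ind f g (fun a b => a = 1 ∧ b = 1) hp
      obtain ⟨ρ, m0, m1, m2, m3⟩ := spb_ind f g (fun a b => a = 1 ∧ b = -1) hm
      set a : ℝ := ∫ u, co σ u with ha
      set b : ℝ := ∫ u, co ρ u with hb
      have hfσ : fn f σ = a := by
        rw [fn_apply, ha]
        congr 1
        funext u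
        by_cases h4 : co f u = 1 ∧ co g u = 1
        · rw [h4.1, one_mul]
        · rw [p2 u h4, mul_zero]
      have hfρ : fn f ρ = b := by
        rw [fn_apply, hb]
        congr 1
        funext u
        by_cases h4 : co f u = 1 ∧ co g u = -1
        · rw [h4.1, one_mul]
        · rw [m2 u h4, mul_zero]
      have hgσ : fn g σ = a := by
        rw [fn_apply, ha]
        congr 1
        funext u
        by_cases h4 : co f u = 1 ∧ co g u = 1
        · rw [h4.2, one_mul]
        · rw [p2 u h4, mul_zero]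
      have hgρ : fn g ρ = -b := by
        rw [fn_apply, hb, ← integral_neg]
        congr 1
        funext u
        by_cases h4 : co f u = 1 ∧ co g u = -1
        · rw [h4.2, neg_one_mul]
        · rw [m2 u h4, mul_zero, neg_zero]
      have h1σ : fn one σ = a := spb_one σ
      have h1ρ : fn one ρ = b := spb_one ρ
      refine ⟨b • σ + a • ρ, ?_, ?_, ?_⟩
      · rw [mem_TyS]
        refine ⟨fun u => ?_, ?_⟩
        · have h5 : co (b • σ + a • ρ) u = b * co σ u + a * co ρ u := rfl
          rw [h5]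
          have h6 := mul_nonneg m3.le (p0 u)
          have h7 := mul_nonneg p3.le (m0 u)
          linarith
        · rw [← spb_one, map_add, map_smul, map_smul, h1σ, h1ρ, smul_eq_mul, smul_eq_mul]
          have := mul_pos p3 m3
          linarith
      · rw [map_add, map_smul, map_smul, map_add, map_smul, map_smul, hfσ, hfρ, h1σ, h1ρ]
      · rw [map_add, map_smul, map_smul, hgσ, hgρ, smul_eq_mul, smul_eq_mul]
        ring
    · right; left
      intro τ hτ h
      have hs := spb_supp hf hτ h
      rw [spb_one, fn_apply]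
      refine integral_congr_ae ?_
      rw [not_frequently] at hz hm
      filter_upwards [hs, hz, hm] with u h1 h2 h3
      rcases h1 with h1 | h1
      · rcases hg u with h4 | h4 | h4
        · exact absurd ⟨h1, h4⟩ h2
        · rw [h4, one_mul]
        · exact absurd ⟨h1, h4⟩ h3
      · rw [h1, mul_zero]
  · right; right
    intro τ hτ h
    have hs := spb_supp hf hτ h
    rw [spb_one, fn_apply, ← integral_neg]
    refine integral_congr_ae ?_
    rw [not_frequently] at hz hp
    filter_upwards [hs, hz, hp] with u h1 h2 h3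
    rcases h1 with h1 | h1
    · rcases hg u with h4 | h4 | h4
      · exact absurd ⟨h1, h4⟩ h2
      · exact absurd ⟨h1, h4⟩ h3
      · rw [h4, neg_one_mul]
    · rw [h1, mul_zero, neg_zero]

end Pool.Agent.Helper83.TM
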