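import Pool.Agent.Helper83.TM.Defs

/-!
# TM-Lf: finitely many allocations near the convex hull of a finite set of types

`K = convexHull ℝ F` is compact (`Set.Finite.isCompact_convexHull`) and `K ⊆ S.Ty` (convexity).
So `K ×ˢ K ×ˢ K` is compact in `E × E × E`.  For `δ > 0` and a set `P ⊆ E × E × E` let `V δ P` be
the set of the triples `(A x y z, B x y z, C x y z)` with types `x y z` such that
`dist (x, y, z) p < δ` for some `p ∈ P` (the distance of the product is the maximum).  By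
`IsCompact.induction_on` with the property `∃ δ > 0, (V δ P).Finite` (empty set, subsets, unions:
minimum of the two `δ`; a point `p ∈ K ×ˢ K ×ˢ K`: `m.lf` gives `ε`, and the ball of radius `ε / 2`
around `p` works with `δ = ε / 2`) one gets `δ > 0` with `V δ (K ×ˢ K ×ˢ K)` finite.  Points
`x, y, z ∈ Nr S δ F` have points of `K` at distance `< δ` (`Metric.mem_thickening_iff`).
-/

set_option autoImplicit false

open Set Filter Topology

namespace Pool.Agent.Helper83.TM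

variable {E : Type*} [NormedAddCommGroup E] [NormedSpace ℝ E] {S : Space E}

/-- the allocations at types close to a set of triples -/
def lf_V (m : Mech S) (δ : ℝ) (P : Set (E × E × E)) :
    Set ((E →L[ℝ] ℝ) × (E →L[ℝ] ℝ) × (E →L[ℝ] ℝ)) :=
  {q | ∃ x ∈ S.Ty, ∃ y ∈ S.Ty, ∃ z ∈ S.Ty, (∃ p ∈ P, dist (x, y, z) p < δ) ∧
    q = (m.A x y z, m.B x y z, m.C x y z)}

theorem lf_V_mono (m : Mech S) {δ δ' : ℝ} {P P' : Set (E × E × E)} (h : δ ≤ δ') (hP : P ⊆ P') :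
    lf_V m δ P ⊆ lf_V m δ' P' := by
  rintro q ⟨x, hx, y, hy, z, hz, ⟨p, hp, hd⟩, rfl⟩
  exact ⟨x, hx, y, hy, z, hz, ⟨p, hP hp, hd.trans_le h⟩, rfl⟩

theorem lf_hull (m : Mech S) {F : Set E} (hF : F.Finite) (hT : F ⊆ S.Ty) :
    ∃ δ > 0, {q : (E →L[ℝ] ℝ) × (E →L[ℝ] ℝ) × (E →L[ℝ] ℝ) | ∃ x ∈ Nr S δ F, ∃ y ∈ Nr S δ F,
      ∃ z ∈ Nr S δ F, q = (m.A x y z, m.B x y z, m.C x y z)}.Finite := by
  have hK : IsCompact (convexHull ℝ F) := hF.isCompact_convexHull ℝ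
  have hKT : convexHull ℝ F ⊆ S.Ty := convexHull_min hT S.conv
  have hKKK : IsCompact (convexHull ℝ F ×ˢ convexHull ℝ F ×ˢ convexHull ℝ F) :=
    hK.prod (hK.prod hK)
  have key : ∃ δ > 0, (lf_V m δ (convexHull ℝ F ×ˢ convexHull ℝ F ×ˢ convexHull ℝ F)).Finite := by
    refine hKKK.induction_on (p := fun P => ∃ δ > 0, (lf_V m δ P).Finite) ?_ ?_ ?_ ?_
    · refine ⟨1, one_pos, ?_⟩
      have h0 : lf_V m 1 (∅ : Set (E × E × E)) = ∅ := by
        ext q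
        constructor
        · rintro ⟨x, hx, y, hy, z, hz, ⟨p, hp, hd⟩, rfl⟩
          exact hp.elim
        · intro h
          exact h.elim
      rw [h0]
      exact Set.finite_empty
    · rintro s t hst ⟨δ, hδ, h⟩
      exact ⟨δ, hδ, h.subset (lf_V_mono m le_rfl hst)⟩
    · rintro s t ⟨δ, hδ, h⟩ ⟨δ', hδ', h'⟩
      refine ⟨min δ δ', lt_min hδ hδ', (h.union h').subset ?_⟩
      rintro q ⟨x, hx, y, hy, z, hz, ⟨p, hp | hp, hd⟩, rfl⟩
      · exact Or.inl ⟨x, hx, y, hy, z, hz, ⟨p, hp, hd.trans_le (min_le_left _ _)⟩, rfl⟩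
      · exact Or.inr ⟨x, hx, y, hy, z, hz, ⟨p, hp, hd.trans_le (min_le_right _ _)⟩, rfl⟩
    · rintro ⟨a, b, c⟩ ⟨ha, hb, hc⟩
      obtain ⟨ε, hε, h⟩ := m.lf a (hKT ha) b (hKT hb) c (hKT hc)
      refine ⟨Metric.ball (a, b, c) (ε / 2),
        mem_nhdsWithin_of_mem_nhds (Metric.ball_mem_nhds _ (half_pos hε)), ε / 2, half_pos hε,
        h.subset ?_⟩
      rintro q ⟨x, hx, y, hy, z, hz, ⟨p, hp, hd⟩, rfl⟩
      have h1 : dist (x, y, z) (a, b, c) < ε := by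
        have h2 := dist_triangle (x, y, z) p (a, b, c)
        have h3 : dist p (a, b, c) < ε / 2 := hp
        linarith
      rw [Prod.dist_eq, Prod.dist_eq, max_lt_iff, max_lt_iff] at h1
      exact ⟨x, hx, y, hy, z, hz, h1.1, h1.2.1, h1.2.2, rfl⟩
  obtain ⟨δ, hδ, h⟩ := key
  refine ⟨δ, hδ, h.subset ?_⟩
  rintro q ⟨x, ⟨hx, hx'⟩, y, ⟨hy, hy'⟩, z, ⟨hz, hz'⟩, rfl⟩
  obtain ⟨a, ha, h1⟩ := Metric.mem_thickening_iff.1 hx'
  obtain ⟨b, hb, h2⟩ := Metric.mem_thickening_iff.1 hy'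
  obtain ⟨c, hc, h3⟩ := Metric.mem_thickening_iff.1 hz'
  refine ⟨x, hx, y, hy, z, hz, ⟨(a, b, c), ⟨ha, hb, hc⟩, ?_⟩, rfl⟩
  rw [Prod.dist_eq, Prod.dist_eq, max_lt_iff, max_lt_iff]
  exact ⟨h1, h2, h3⟩

end Pool.Agent.Helper83.TM
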