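import Pool.Agent.Helper83.TM.Sp

/-!
# TM-MechS: a truthful mechanism of three agents as an abstract mechanism

Plan.  Total conversion `toD : stepSub → Density` (`x ↦ ⟨co x, _⟩` if `x ∈ TyS`, the constant
density `one` otherwise).  `prof x y z : Fin 3 → Density := ![toD x, toD y, toD z]`, the indicator
of the piece `M (prof x y z) i` is a step function (intervals of all three pieces together cover
`[0,1]`, on each of them the indicator is constant): `ind d i : stepSub`.  Put
`A x y z = fn (ind (prof x y z) 0)`, `B` with `1`, `C` with `2`.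

* `fn (ind d i) x = ∫ u in M d i, co x u` (`integral_indicator`, the pieces are measurable); for a
  type `x` this is `value (toD x) (M d i)`.
* `sum`: the three indicators add up to `1` pointwise (`hM.disj`, `hM.cover`).
* `tA ..`: differences of two indicators have values in `{0,1,-1}`.
* `iA ..` is `hT` (with `Function.update ![a,b,c] 0 a' = ![a',b,c]` etc., by `fin_cases`).
* `pA ..` is `hp`.  `bA ..`: `|∫ 1_Z x| ≤ ‖x‖` (`abs_co_le`).
* `dB`: `τ` = indicator of the piece of agent `0` (a density, since agent `0` has positive value);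
  it is disjoint from the piece of agent `1`.
* `lf`: `hF` at the profile `prof x y z`.  If `x', y', z'` are types with `dist < ε` then the
  densities are pointwise `ε`-close (`abs_co_le (x' - x)`), so `M (prof x' y' z')` is a.e. equal to
  a member of the finite set; hence the triple of functionals is one of finitely many: for each
  member `A` of the finite set choose one triple realised by it, if there is one
  (`Set.Finite.subset (hfin.image f)`), using that `M d i =ᵐ M d' i` implies
  `fn (ind d i) = fn (ind d' i)`.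
-/

set_option autoImplicit false

open MeasureTheory Set Filter Topology

namespace Pool.Agent.Helper83.TM

open Pool.Agent.Helper83.Cake

lemma mechS_one_mem : one ∈ TyS := interior_subset one_int_S

/-- total conversion of step functions to densities -/
noncomputable def mechS_toD (x : stepSub) : Density :=
  open Classical in if h : x ∈ TyS then ⟨co x, h⟩ else ⟨co one, mechS_one_mem⟩

lemma mechS_toD_val {x : stepSub} (h : x ∈ TyS) : (mechS_toD x).1 = co x := by
  unfold mechS_toD
  rw [dif_pos h]

/-- the profile of three reports -/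
noncomputable def mechS_prof (x y z : stepSub) : Fin 3 → Density :=
  ![mechS_toD x, mechS_toD y, mechS_toD z]

section

variable {M : (Fin 3 → Density) → Fin 3 → Set unitInterval}

lemma mechS_ind_step (hM : IsMechanism M) (d : Fin 3 → Density) (i : Fin 3) :
    IsStep ((M d i).indicator (fun _ => (1 : ℝ))) := by
  choose S hSf hSo hSu using fun j => hM.piece d j
  refine ⟨⋃ j, S j, finite_iUnion hSf, ?_, ?_, ?_⟩
  · intro J hJ
    obtain ⟨j, hj⟩ := mem_iUnion.1 hJ
    exact hSo j J hj
  · rw [eq_univ_iff_forall]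
    intro u
    have hu : u ∈ ⋃ j, M d j := by rw [hM.cover d]; trivial
    obtain ⟨j, hj⟩ := mem_iUnion.1 hu
    rw [hSu j] at hj
    obtain ⟨J, hJ, huJ⟩ := hj
    exact ⟨J, mem_iUnion.2 ⟨j, hJ⟩, huJ⟩
  · intro J hJ
    obtain ⟨j, hj⟩ := mem_iUnion.1 hJ
    have hJM : J ⊆ M d j := by
      rw [hSu j]
      exact fun u hu => ⟨J, hj, hu⟩
    by_cases hij : j = i
    · subst hij
      exact ⟨1, fun u hu => indicator_of_mem (hJM hu) _⟩
    · refine ⟨0, fun u hu => indicator_of_notMem ?_ _⟩
      exact disjoint_left.1 (hM.disj d j i hij) (hJM hu)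

/-- the indicator of a piece -/
noncomputable def mechS_ind (hM : IsMechanism M) (d : Fin 3 → Density) (i : Fin 3) : stepSub :=
  mkS ((M d i).indicator (fun _ => (1 : ℝ))) (mechS_ind_step hM d i)

lemma mechS_co_ind (hM : IsMechanism M) (d : Fin 3 → Density) (i : Fin 3) :
    co (mechS_ind hM d i) = (M d i).indicator (fun _ => (1 : ℝ)) := rfl

lemma mechS_fn_ind (hM : IsMechanism M) (d : Fin 3 → Density) (i : Fin 3) (x : stepSub) :
    fn (mechS_ind hM d i) x = ∫ u in M d i, co x u := by
  rw [fn_apply, ← integral_indicator (hM.piece d i).measurableSet]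
  congr 1
  funext u
  rw [mechS_co_ind]
  by_cases hu : u ∈ M d i
  · rw [indicator_of_mem hu, indicator_of_mem hu, one_mul]
  · rw [indicator_of_notMem hu, indicator_of_notMem hu, zero_mul]

lemma mechS_value (hM : IsMechanism M) (d : Fin 3 → Density) (i : Fin 3) {x : stepSub}
    (hx : x ∈ TyS) : fn (mechS_ind hM d i) x = value (mechS_toD x) (M d i) := by
  rw [mechS_fn_ind]
  unfold value
  rw [mechS_toD_val hx]

lemma mechS_sum (hM : IsMechanism M) (d : Fin 3 → Density) (u : unitInterval) :
    co (mechS_ind hM d 0) u + co (mechS_ind hM d 1) u + co (mechS_ind hM d 2) u = 1 := by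
  simp only [mechS_co_ind]
  have hu : u ∈ ⋃ j, M d j := by rw [hM.cover d]; trivial
  obtain ⟨j, hj⟩ := mem_iUnion.1 hu
  have hn : ∀ i, j ≠ i → u ∉ M d i := fun i hi => disjoint_left.1 (hM.disj d j i hi) hj
  fin_cases j
  · have h0 : u ∈ M d 0 := hj
    rw [indicator_of_mem h0, indicator_of_notMem (hn 1 (by decide)),
      indicator_of_notMem (hn 2 (by decide))]
    norm_num
  · have h0 : u ∈ M d 1 := hj
    rw [indicator_of_mem h0, indicator_of_notMem (hn 0 (by decide)),
      indicator_of_notMem (hn 2 (by decide))]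
    norm_num
  · have h0 : u ∈ M d 2 := hj
    rw [indicator_of_mem h0, indicator_of_notMem (hn 0 (by decide)),
      indicator_of_notMem (hn 1 (by decide))]
    norm_num

lemma mechS_sum' (hM : IsMechanism M) (d : Fin 3 → Density) :
    fn (mechS_ind hM d 0) + fn (mechS_ind hM d 1) + fn (mechS_ind hM d 2) = fn one := by
  ext x
  simp only [ContinuousLinearMap.add_apply, fn_apply]
  have h12 : Integrable (fun u => co (mechS_ind hM d 0) u * co x u +
      co (mechS_ind hM d 1) u * co x u) := (integrable_mul _ _).add (integrable_mul _ _)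
  rw [← integral_add (integrable_mul _ _) (integrable_mul _ _),
    ← integral_add h12 (integrable_mul _ _)]
  congr 1
  funext u
  have h := mechS_sum hM d u
  have h1 : co one u = 1 := rfl
  rw [h1, ← h]
  ring

lemma mechS_fn_sub (a b : stepSub) : fn a - fn b = fn (a - b) := by
  ext x
  simp only [ContinuousLinearMap.sub_apply, fn_apply]
  rw [← integral_sub (integrable_mul _ _) (integrable_mul _ _)]
  congr 1
  funext u
  rw [co_sub]
  ring

lemma mechS_tri (hM : IsMechanism M) (d d' : Fin 3 → Density) (i : Fin 3) :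
    fn (mechS_ind hM d i) - fn (mechS_ind hM d' i) ∈ TriS := by
  refine ⟨mechS_ind hM d i - mechS_ind hM d' i, fun u => ?_, mechS_fn_sub _ _⟩
  rw [co_sub, mechS_co_ind, mechS_co_ind]
  by_cases h1 : u ∈ M d i <;> by_cases h2 : u ∈ M d' i
  · left; rw [indicator_of_mem h1, indicator_of_mem h2]; norm_num
  · right; left; rw [indicator_of_mem h1, indicator_of_notMem h2]; norm_num
  · right; right; rw [indicator_of_notMem h1, indicator_of_mem h2]; norm_num
  · left; rw [indicator_of_notMem h1, indicator_of_notMem h2]; norm_num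

lemma mechS_nonneg (hM : IsMechanism M) (d : Fin 3 → Density) (i : Fin 3) {t : stepSub}
    (ht : t ∈ TyS) : 0 ≤ fn (mechS_ind hM d i) t := by
  rw [mechS_fn_ind]
  exact integral_nonneg fun u => (mem_TyS.1 ht).1 u

lemma mechS_ind_abs (hM : IsMechanism M) (d : Fin 3 → Density) (i : Fin 3) (u : unitInterval) :
    |co (mechS_ind hM d i) u| ≤ 1 := by
  rw [mechS_co_ind]
  by_cases h1 : u ∈ M d i
  · rw [indicator_of_mem h1]; norm_num
  · rw [indicator_of_notMem h1]; norm_num

lemma mechS_bound (hM : IsMechanism M) (d : Fin 3 → Density) (i : Fin 3) (t : stepSub) :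
    |fn (mechS_ind hM d i) t| ≤ ‖t‖ := by
  rw [fn_apply]
  have h := norm_integral_le_of_norm_le_const (μ := (volume : Measure unitInterval))
    (f := fun u => co (mechS_ind hM d i) u * co t u) (C := ‖t‖) (ae_of_all _ fun u => by
      rw [Real.norm_eq_abs, abs_mul]
      have h1 := mechS_ind_abs hM d i u
      have h2 := abs_co_le t u
      calc |co (mechS_ind hM d i) u| * |co t u| ≤ 1 * ‖t‖ :=
            mul_le_mul h1 h2 (abs_nonneg _) zero_le_one
        _ = ‖t‖ := one_mul _)
  simpa using h

lemma mechS_ind_mem (hM : IsMechanism M) (d : Fin 3 → Density) (i : Fin 3) {x : stepSub}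
    (hx : x ∈ TyS) (hpos : 0 < fn (mechS_ind hM d i) x) : mechS_ind hM d i ∈ TyS := by
  rw [mem_TyS]
  have h0 : ∀ u, 0 ≤ co (mechS_ind hM d i) u := by
    intro u
    rw [mechS_co_ind]
    exact indicator_nonneg (fun _ _ => zero_le_one) u
  refine ⟨h0, ?_⟩
  have hint : Integrable (co (mechS_ind hM d i)) := by
    refine Integrable.of_bound (co_measurable _).aestronglyMeasurable 1 (ae_of_all _ fun u => ?_)
    rw [Real.norm_eq_abs]
    exact mechS_ind_abs hM d i u
  have h1 : fn (mechS_ind hM d i) x ≤ ‖x‖ * ∫ u, co (mechS_ind hM d i) u := by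
    rw [fn_apply, ← integral_const_mul]
    apply integral_mono (integrable_mul _ _) (hint.const_mul _)
    intro u
    show co (mechS_ind hM d i) u * co x u ≤ ‖x‖ * co (mechS_ind hM d i) u
    have h2 : co x u ≤ ‖x‖ := (le_abs_self _).trans (abs_co_le x u)
    rw [mul_comm]
    exact mul_le_mul_of_nonneg_right h2 (h0 u)
  have h3 : 0 < ‖x‖ * ∫ u, co (mechS_ind hM d i) u := lt_of_lt_of_le hpos h1
  have h4 : 0 ≤ ∫ u, co (mechS_ind hM d i) u := integral_nonneg h0
  rcases h4.eq_or_lt with h5 | h5
  · rw [← h5, mul_zero] at h3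
    exact absurd h3 (lt_irrefl _)
  · exact h5

lemma mechS_congr (hM : IsMechanism M) {d d' : Fin 3 → Density} {i : Fin 3}
    (h : M d i =ᵐ[volume] M d' i) : fn (mechS_ind hM d i) = fn (mechS_ind hM d' i) := by
  ext x
  rw [mechS_fn_ind, mechS_fn_ind]
  exact setIntegral_congr_set h

lemma mechS_upd0 (x x' y z : stepSub) :
    Function.update (mechS_prof x y z) 0 (mechS_toD x') = mechS_prof x' y z := by
  funext i; fin_cases i <;> rfl

lemma mechS_upd1 (x y y' z : stepSub) :
    Function.update (mechS_prof x y z) 1 (mechS_toD y') = mechS_prof x y' z := by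
  funext i; fin_cases i <;> rfl

lemma mechS_upd2 (x y z z' : stepSub) :
    Function.update (mechS_prof x y z) 2 (mechS_toD z') = mechS_prof x y z' := by
  funext i; fin_cases i <;> rfl

lemma mechS_lf (hM : IsMechanism M) (hF : LocallyFiniteMech M) (x : stepSub) (hx : x ∈ TyS)
    (y : stepSub) (hy : y ∈ TyS) (z : stepSub) (hz : z ∈ TyS) : ∃ ε > 0,
    {q : (stepSub →L[ℝ] ℝ) × (stepSub →L[ℝ] ℝ) × (stepSub →L[ℝ] ℝ) | ∃ x' ∈ TyS, ∃ y' ∈ TyS,
      ∃ z' ∈ TyS, dist x' x < ε ∧ dist y' y < ε ∧ dist z' z < ε ∧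
      q = (fn (mechS_ind hM (mechS_prof x' y' z') 0), fn (mechS_ind hM (mechS_prof x' y' z') 1),
        fn (mechS_ind hM (mechS_prof x' y' z') 2))}.Finite := by
  obtain ⟨ε, hε, 𝒜, hfin, hA⟩ := hF (mechS_prof x y z)
  refine ⟨ε, hε, ?_⟩
  classical
  let g : (Fin 3 → Set unitInterval) →
      (stepSub →L[ℝ] ℝ) × (stepSub →L[ℝ] ℝ) × (stepSub →L[ℝ] ℝ) := fun A =>
    if h : ∃ d' : Fin 3 → Density, ∀ i, M d' i =ᵐ[volume] A i then
      (fn (mechS_ind hM h.choose 0), fn (mechS_ind hM h.choose 1), fn (mechS_ind hM h.choose 2))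
    else 0
  refine (hfin.image g).subset ?_
  rintro q ⟨x', hx', y', hy', z', hz', h1, h2, h3, rfl⟩
  have key : ∀ a ∈ TyS, ∀ a' ∈ TyS, dist a' a < ε → ∀ u,
      |(mechS_toD a').1 u - (mechS_toD a).1 u| < ε := by
    intro a ha a' ha' hd u
    rw [mechS_toD_val ha, mechS_toD_val ha', ← co_sub]
    refine lt_of_le_of_lt (abs_co_le _ u) ?_
    rwa [← dist_eq_norm]
  obtain ⟨A, hA1, hA2⟩ := hA (mechS_prof x' y' z') (by
    intro i u
    fin_cases i
    · exact key x hx x' hx' h1 u
    · exact key y hy y' hy' h2 u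
    · exact key z hz z' hz' h3 u)
  refine ⟨A, hA1, ?_⟩
  have hex : ∃ d' : Fin 3 → Density, ∀ i, M d' i =ᵐ[volume] A i := ⟨_, hA2⟩
  have h4 := hex.choose_spec
  have h5 : ∀ i, fn (mechS_ind hM hex.choose i) = fn (mechS_ind hM (mechS_prof x' y' z') i) :=
    fun i => mechS_congr hM ((h4 i).trans (hA2 i).symm)
  show g A = _
  simp only [g]
  rw [dif_pos hex, h5 0, h5 1, h5 2]

end

theorem exists_mech (M : (Fin 3 → Density) → Fin 3 → Set unitInterval)
    (hM : IsMechanism M) (hT : Truthful M) (hF : LocallyFiniteMech M)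
    (hp : ∀ d i, 0 < value (d i) (M d i)) : Nonempty (Mech sp) := by
  have p0 : ∀ x y z : stepSub, x ∈ TyS → 0 < fn (mechS_ind hM (mechS_prof x y z) 0) x := by
    intro x y z hx
    rw [mechS_value hM _ _ hx]
    exact hp (mechS_prof x y z) 0
  have p1 : ∀ x y z : stepSub, y ∈ TyS → 0 < fn (mechS_ind hM (mechS_prof x y z) 1) y := by
    intro x y z hy
    rw [mechS_value hM _ _ hy]
    exact hp (mechS_prof x y z) 1
  have p2 : ∀ x y z : stepSub, z ∈ TyS → 0 < fn (mechS_ind hM (mechS_prof x y z) 2) z := by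
    intro x y z hz
    rw [mechS_value hM _ _ hz]
    exact hp (mechS_prof x y z) 2
  refine ⟨{
    A := fun x y z => fn (mechS_ind hM (mechS_prof x y z) 0)
    B := fun x y z => fn (mechS_ind hM (mechS_prof x y z) 1)
    C := fun x y z => fn (mechS_ind hM (mechS_prof x y z) 2)
    sum := fun x y z => mechS_sum' hM _
    nA := fun x y z t ht => mechS_nonneg hM _ _ ht
    nB := fun x y z t ht => mechS_nonneg hM _ _ ht
    nC := fun x y z t ht => mechS_nonneg hM _ _ ht
    tA := fun x y z x' y' z' => mechS_tri hM _ _ _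
    tB := fun x y z x' y' z' => mechS_tri hM _ _ _
    tC := fun x y z x' y' z' => mechS_tri hM _ _ _
    iA := ?_
    iB := ?_
    iC := ?_
    pA := p0
    pB := p1
    pC := p2
    bA := fun x y z t => mechS_bound hM _ _ t
    bB := fun x y z t => mechS_bound hM _ _ t
    bC := fun x y z t => mechS_bound hM _ _ t
    dB := ?_
    lf := mechS_lf hM hF }⟩
  · intro x x' y z hx
    show fn (mechS_ind hM (mechS_prof x' y z) 0) x ≤ fn (mechS_ind hM (mechS_prof x y z) 0) x
    rw [mechS_value hM _ _ hx, mechS_value hM _ _ hx]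
    have h := hT (mechS_prof x y z) 0 (mechS_toD x')
    rw [mechS_upd0] at h
    exact h
  · intro x y y' z hy
    show fn (mechS_ind hM (mechS_prof x y' z) 1) y ≤ fn (mechS_ind hM (mechS_prof x y z) 1) y
    rw [mechS_value hM _ _ hy, mechS_value hM _ _ hy]
    have h := hT (mechS_prof x y z) 1 (mechS_toD y')
    rw [mechS_upd1] at h
    exact h
  · intro x y z z' hz
    show fn (mechS_ind hM (mechS_prof x y z') 2) z ≤ fn (mechS_ind hM (mechS_prof x y z) 2) z
    rw [mechS_value hM _ _ hz, mechS_value hM _ _ hz]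
    have h := hT (mechS_prof x y z) 2 (mechS_toD z')
    rw [mechS_upd2] at h
    exact h
  · intro x y z hx _
    refine ⟨mechS_ind hM (mechS_prof x y z) 0, mechS_ind_mem hM _ _ hx (p0 x y z hx), ?_⟩
    show fn (mechS_ind hM (mechS_prof x y z) 1) (mechS_ind hM (mechS_prof x y z) 0) = 0
    rw [fn_apply]
    have : ∀ u, co (mechS_ind hM (mechS_prof x y z) 1) u *
        co (mechS_ind hM (mechS_prof x y z) 0) u = 0 := by
      intro u
      rw [mechS_co_ind, mechS_co_ind]
      by_cases h1 : u ∈ M (mechS_prof x y z) 1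
      · have h2 : u ∉ M (mechS_prof x y z) 0 :=
          disjoint_left.1 (hM.disj _ 1 0 (by decide)) h1
        rw [indicator_of_notMem h2, mul_zero]
      · rw [indicator_of_notMem h1, zero_mul]
    simp only [this, integral_zero]

end Pool.Agent.Helper83.TM
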