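import Pool.Agent.Helper83.TM.Step

/-!
# TM-SpA: walls of the step function space (linear relations)

Proofs.  Everything is a statement about step functions almost everywhere.

* `fn_eq_iff`: if `fn w = fn w'`, evaluate at `x = w - w'`: `∫ (w - w')^2 = 0`, so `w = w'` a.e.
  (`integral_eq_zero_iff_of_nonneg`, `co_sub`, `integrable_mul`).
* `par_S`: `w = fn f`, `w' = fn g` with `f, g` valued in `{0,1,-1}`; `α f = β g` a.e. Since
  `w ≠ 0` the function `f` is not a.e. zero, pick a point with `α f u = β g u`, `f u ≠ 0`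
  (a nonnull set meets a conull set): then `g u ≠ 0` and `|α| = |β|`, so `β = α` or `β = -α`
  (nonzero), and `g = f` a.e. or `g = -f` a.e.
* `ca_S`: `w = fn f`, `v = fn g`, `u = fn h`.  (i) `f u = 1 → g u = 1` for a.e. `u`: otherwise the
  set `{f = 1, g ≠ 1}` has positive measure; its indicator `τ` (a step function, `IsStep.map₂`)
  is in `TyS`, satisfies `w τ = ∫ τ = fn one τ`, hence `v τ = fn one τ`, i.e. `∫ (1 - g) τ = 0`
  with `(1 - g) τ ≥ 1` on a set of positive measure, contradiction.  (ii) `{f = 1}` is not null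
  (take `τ` with `∫ (1 - f) τ = 0` and `∫ τ > 0`).  (iii) a.e. `f + κ g = k h`.  At a point with
  `f = 1 = g` this gives `1 + κ = k h` so `|k| = |1 + κ|` is `3` (for `κ = 2`) or `1` (for
  `κ = -2`).  So a.e. `f + κ g ∈ {0, |1+κ|, -|1+κ|}`, and the cases `f, g ∈ {0,1,-1}` (with
  `f = 1 → g = 1`) give `f ≤ g` a.e.: for `κ = 2`: `f = g`; for `κ = -2`: `f = 0` forces `g = 0`,
  `f = -1` forces `g ∈ {-1, 0}`.  Then `∫ f d ≤ ∫ g d` as `d ≥ 0`.
-/

set_option autoImplicit false

open MeasureTheory Set Filter Topology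

namespace Pool.Agent.Helper83.TM

open Pool.Agent.Helper83.Cake

lemma spa_smul (c : ℝ) (w : stepSub) : fn (c • w) = c • fn w := by
  ext x
  rw [smul_apply, fn_apply, fn_apply, smul_eq_mul, ← integral_const_mul]
  congr 1
  funext u
  rw [co_smul]
  ring

lemma spa_add (w v : stepSub) : fn (w + v) = fn w + fn v := by
  ext x
  rw [add_apply, fn_apply, fn_apply, fn_apply,
    ← integral_add (integrable_mul w x) (integrable_mul v x)]
  congr 1
  funext u
  rw [co_add]
  ring

lemma spa_neg (w : stepSub) : fn (-w) = -fn w := by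
  ext x
  rw [neg_apply, fn_apply, fn_apply, ← integral_neg]
  congr 1
  funext u
  rw [co_neg]
  ring

lemma fn_eq_iff {w w' : stepSub} : fn w = fn w' ↔ co w =ᵐ[volume] co w' := by
  constructor
  · intro h
    have h1 : fn w (w - w') - fn w' (w - w') = 0 := by rw [h, sub_self]
    rw [fn_apply, fn_apply, ← integral_sub (integrable_mul w _) (integrable_mul w' _)] at h1
    have h2 : (fun u => co w u * co (w - w') u - co w' u * co (w - w') u) =
        fun u => (co w u - co w' u) ^ 2 := by
      funext u
      rw [co_sub]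
      ring
    have h3 : Integrable (fun u => (co w u - co w' u) ^ 2)
        (volume : Measure unitInterval) := by
      rw [← h2]
      exact (integrable_mul w _).sub (integrable_mul w' _)
    rw [h2, integral_eq_zero_iff_of_nonneg (fun u => sq_nonneg _) h3] at h1
    filter_upwards [h1] with u hu
    have h4 : (co w u - co w' u) ^ 2 = 0 := hu
    have := pow_eq_zero_iff (two_ne_zero) |>.mp h4
    linarith
  · intro h
    ext x
    rw [fn_apply, fn_apply]
    refine integral_congr_ae ?_
    filter_upwards [h] with u hu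
    rw [hu]

lemma spa_ne {w : stepSub} (h : fn w ≠ 0) : ∃ᶠ u in ae (volume : Measure unitInterval),
    co w u ≠ 0 := by
  intro h1
  apply h
  have h2 : fn w = fn (0 : stepSub) := by
    rw [fn_eq_iff]
    filter_upwards [h1] with u hu
    by_contra h3
    exact hu (fun h4 => h3 (by rw [h4]; rfl))
  rw [h2]
  have := spa_smul 0 (0 : stepSub)
  rwa [zero_smul, zero_smul] at this

lemma par_S : ∀ w ∈ TriS, ∀ w' ∈ TriS, w ≠ 0 → w' ≠ 0 → ∀ α β : ℝ, α ≠ 0 → α • w = β • w' →
    w' = w ∨ w' = -w := by
  rintro w ⟨f, hf, rfl⟩ w' ⟨g, hg, rfl⟩ hw hw' α β hα h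
  rw [← spa_smul, ← spa_smul, fn_eq_iff] at h
  obtain ⟨u, hu1, hu2⟩ := ((spa_ne hw).and_eventually h).exists
  rw [co_smul, co_smul] at hu2
  have key : β = α ∨ β = -α := by
    rcases hf u with h1 | h1 | h1
    · exact absurd h1 hu1
    · rcases hg u with h2 | h2 | h2 <;> rw [h1, h2] at hu2
      · exact absurd (by linarith) hα
      · left; linarith
      · right; linarith
    · rcases hg u with h2 | h2 | h2 <;> rw [h1, h2] at hu2
      · exact absurd (by linarith) hα
      · right; linarith
      · left; linarith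
  rcases key with rfl | rfl
  · left
    rw [fn_eq_iff]
    filter_upwards [h] with v hv
    rw [co_smul, co_smul] at hv
    exact (mul_left_cancel₀ hα hv).symm
  · right
    rw [← spa_neg, fn_eq_iff]
    filter_upwards [h] with v hv
    rw [co_smul, co_smul] at hv
    rw [co_neg]
    have : α * co f v = α * (-co g v) := by rw [hv]; ring
    have := mul_left_cancel₀ hα this
    linarith

lemma spa_one (x : stepSub) : fn one x = ∫ u, co x u := by
  rw [fn_apply]
  congr 1
  funext u
  show (1 : ℝ) * co x u = co x u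
  rw [one_mul]

lemma spa_int (x : stepSub) : Integrable (co x) (volume : Measure unitInterval) := by
  have := integrable_mul one x
  refine this.congr (ae_of_all _ fun u => ?_)
  show (1 : ℝ) * co x u = co x u
  rw [one_mul]

lemma ca_S : ∀ w ∈ TriS, ∀ v ∈ TriS, ∀ u ∈ TriS, (∃ τ ∈ TyS, w τ = fn one τ) →
    (∀ τ ∈ TyS, w τ = fn one τ → v τ = fn one τ) → ∀ κ k : ℝ, (κ = 2 ∨ κ = -2) →
    w + κ • v = k • u → ∀ d ∈ TyS, w d ≤ v d := by
  rintro w ⟨f, hf, rfl⟩ v ⟨g, hg, rfl⟩ u ⟨h, hh, rfl⟩ h1 h2 κ k hκ hlin d hd
  -- (i)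
  have s1 : ∀ᵐ x ∂(volume : Measure unitInterval), co f x = 1 → co g x = 1 := by
    by_contra hcon
    have hstep : IsStep (fun x => if co f x = 1 ∧ co g x ≠ 1 then (1 : ℝ) else 0) :=
      (isStep_co f).map₂ (isStep_co g) (fun a b => if a = 1 ∧ b ≠ 1 then (1 : ℝ) else 0)
    set τ : stepSub := mkS _ hstep with hτ
    have hco : ∀ x, co τ x = if co f x = 1 ∧ co g x ≠ 1 then (1 : ℝ) else 0 := fun x => rfl
    have hnn : ∀ x, 0 ≤ co τ x := by
      intro x; rw [hco]; split_ifs <;> norm_num
    have hpos : 0 < ∫ x, co τ x := by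
      have h0 : 0 ≤ ∫ x, co τ x := integral_nonneg hnn
      rcases h0.lt_or_eq with h3 | h3
      · exact h3
      · exfalso
        have h4 := (integral_eq_zero_iff_of_nonneg hnn (spa_int τ)).mp h3.symm
        apply hcon
        filter_upwards [h4] with x hx h5
        by_contra h6
        have h7 : co τ x = 0 := hx
        rw [hco, if_pos ⟨h5, h6⟩] at h7
        exact one_ne_zero h7
    have hmem : τ ∈ TyS := ⟨hnn, isStep_co τ, hpos⟩
    have h3 : fn f τ = fn one τ := by
      rw [spa_one, fn_apply]
      congr 1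
      funext x
      rw [hco]
      split_ifs with h4
      · rw [h4.1, one_mul]
      · rw [mul_zero]
    have h4 := h2 τ hmem h3
    rw [spa_one, fn_apply] at h4
    have h5 : ∫ x, co g x * co τ x ≤ 0 := by
      refine integral_nonpos fun x => ?_
      show co g x * co τ x ≤ 0
      rw [hco]
      split_ifs with h6
      · rcases hg x with h7 | h7 | h7
        · rw [h7]; norm_num
        · exact absurd h7 h6.2
        · rw [h7]; norm_num
      · rw [mul_zero]
    linarith
  -- (ii)
  have s2 : ∃ᶠ x in ae (volume : Measure unitInterval), co f x = 1 := by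
    intro hcon
    obtain ⟨τ, hτ, h3⟩ := h1
    rw [spa_one, fn_apply] at h3
    have hle : ∀ x, co f x ≤ 1 := by
      intro x
      rcases hf x with h4 | h4 | h4 <;> rw [h4] <;> norm_num
    have hnn : ∀ x, 0 ≤ (co τ x - co f x * co τ x) := by
      intro x
      have := hle x
      have h5 := hτ.nonneg x
      nlinarith
    have hi : Integrable (fun x => co τ x - co f x * co τ x)
        (volume : Measure unitInterval) := (spa_int τ).sub (integrable_mul f τ)
    have h4 : ∫ x, (co τ x - co f x * co τ x) = 0 := by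
      rw [integral_sub (spa_int τ) (integrable_mul f τ), h3, sub_self]
    have h5 := (integral_eq_zero_iff_of_nonneg hnn hi).mp h4
    have h6 : ∫ x, co τ x = 0 := by
      rw [← integral_zero unitInterval ℝ (μ := volume)]
      refine integral_congr_ae ?_
      filter_upwards [h5, hcon] with x hx hx2
      have h7 : co τ x - co f x * co τ x = 0 := hx
      have h8 : (1 - co f x) * co τ x = 0 := by linarith
      rcases mul_eq_zero.mp h8 with h9 | h9
      · exact absurd (by linarith) hx2
      · exact h9
    exact absurd hτ.pos (by rw [h6]; exact lt_irrefl _)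
  -- (iii)
  have s3 : ∀ᵐ x ∂(volume : Measure unitInterval), co f x + κ * co g x = k * co h x := by
    rw [← spa_smul, ← spa_smul, ← spa_add, fn_eq_iff] at hlin
    filter_upwards [hlin] with x hx
    rwa [co_add, co_smul, co_smul] at hx
  obtain ⟨x0, ⟨hx1, hx2⟩, hx3⟩ := ((s2.and_eventually s1).and_eventually s3).exists
  rw [hx1, hx2 hx1, mul_one] at hx3
  have s4 : ∀ᵐ x ∂(volume : Measure unitInterval), co f x ≤ co g x := by
    filter_upwards [s1, s3] with x a1 a2
    rcases hf x with b1 | b1 | b1
    · rcases hg x with b2 | b2 | b2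
      · rw [b1, b2]
      · rw [b1, b2]; norm_num
      · exfalso
        rw [b1, b2] at a2
        rcases hκ with rfl | rfl <;> rcases hh x0 with b3 | b3 | b3 <;>
          rcases hh x with b4 | b4 | b4 <;> rw [b3] at hx3 <;> rw [b4] at a2 <;> linarith
    · rw [b1, a1 b1]
    · rcases hg x with b2 | b2 | b2 <;> rw [b1, b2] <;> norm_num
  rw [fn_apply, fn_apply]
  refine integral_mono_ae (integrable_mul f d) (integrable_mul g d) ?_
  filter_upwards [s4] with x hx
  exact mul_le_mul_of_nonneg_right hx (hd.nonneg x)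

end Pool.Agent.Helper83.TM
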