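import Pool.Agent.Helper83.TM.St.Gen

/-!
# TM-Trans: transport of effectiveness along a segment of the third agent

Let `x t = seg p q t`, `t ∈ Icc 0 1` (in `Nr S c.δ c.F3` by convexity).

* For `i ∈ {a, b}`: `m.B i y' (x t) - m.B i y'' (x t)` is `0` or `w`: it is in `c.D` (`c.d3B`), and
  `0 ≤ .. y'`, `.. y'' ≤ 0` by `m.iB`; apply `hw`.  So it is `ε_i(t) • w` with
  `ε_i(t) = 0` if `m.B i y' (x t) = m.B i y'' (x t)` and `1` otherwise.  Put
  `e2 t = ε_b(t) - ε_a(t) : ℤ`.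
* For `j ∈ {y', y''}`: `m.A b j (x t) - m.A a j (x t)` is `0` or `v` (`hv1`, `hv2`): it is
  `κ_j(t) • v`, `κ_j(t) = 0` if it is `0` and `1` otherwise.  Put `e1 t = κ_{y'}(t) - κ_{y''}(t) : ℤ`.
* `R t = (m.C b y' (x t) - m.C b y'' (x t)) - (m.C a y' (x t) - m.C a y'' (x t))`
  `= - (e1 t) • v - (e2 t) • w` by `m.sum`.
* Let `t ∈ Icc 0 1` and `N` the neighbourhood of `zero_seg c.D_fin p q t`.  For `t', t'' ∈ N` in
  `Icc 0 1` and each of the four corners `(i, j)` the functional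
  `u_ij = m.C i j (x t') - m.C i j (x t'')` is in `c.D` (`c.d3C`), `0 ≤ u_ij (x t')`,
  `u_ij (x t'') ≤ 0` by `m.iC`, hence `u_ij (x t) = 0`.  So with `i = e2 t' - e2 t''`,
  `j = e1 t' - e1 t''` (absolute values at most `2`): `i • w + j • v = - (R t' - R t'')` is an
  alternating sum of the `u_ij`, so it vanishes at `x t`; and if `Simple c.D (x t)`, all nonzero
  `u_ij` are equal up to sign (or all are zero), so it is `k • u` with `u ∈ S.Tri`
  (`0 ∈ S.Tri` since `m.tA` for equal arguments).  `H` gives `i = 0`, i.e. `e2 t' = e2 t''`.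
* `const_of_local`: `e2 0 = e2 1 = 0` (by `hb1`, `ha1`), and `x 0 = p`.
-/

set_option autoImplicit false

open Set Filter Topology

namespace Pool.Agent.Helper83.TM

variable {E : Type*} [NormedAddCommGroup E] [NormedSpace ℝ E] {S : Space E}

/-- the coefficient `0` or `1` of a functional that is `0` or `v` -/
theorem tr_coef {u v : E →L[ℝ] ℝ} (h : u = 0 ∨ u = v) :
    ∃ k : ℤ, 0 ≤ k ∧ k ≤ 1 ∧ u = (k : ℝ) • v := by
  rcases h with h | h
  · exact ⟨0, le_rfl, zero_le_one, by rw [h]; simp⟩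
  · exact ⟨1, zero_le_one, le_rfl, by rw [h]; simp⟩

/-- the coefficient `0` or `1` of a functional that is `0` or `w`, with `0` only if it is `0` -/
theorem tr_coef' {f g w : E →L[ℝ] ℝ} (h : f - g = 0 ∨ f - g = w) :
    ∃ k : ℤ, 0 ≤ k ∧ k ≤ 1 ∧ f - g = (k : ℝ) • w ∧ (f = g ↔ k = 0) := by
  by_cases h0 : f = g
  · exact ⟨0, le_rfl, zero_le_one, by rw [h0]; simp, by simp [h0]⟩
  · rcases h with h | h
    · exact absurd (sub_eq_zero.1 h) h0
    · exact ⟨1, zero_le_one, le_rfl, by rw [h]; simp, by simp [h0]⟩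

/-- four functionals in `D` that vanish at a simple point are multiples of one of them -/
theorem tr_four {D : Set (E →L[ℝ] ℝ)} {x : E} (hs : Simple D x) {T : Set (E →L[ℝ] ℝ)}
    (hT : D ⊆ T) (h0 : (0 : E →L[ℝ] ℝ) ∈ T) {u1 u2 u3 u4 : E →L[ℝ] ℝ}
    (h1 : u1 ∈ D) (h2 : u2 ∈ D) (h3 : u3 ∈ D) (h4 : u4 ∈ D)
    (z1 : u1 x = 0) (z2 : u2 x = 0) (z3 : u3 x = 0) (z4 : u4 x = 0) :
    ∃ u ∈ T, ∃ k : ℝ, (u2 - u1) - (u4 - u3) = k • u := by
  classical
  have key : ∃ u ∈ T, ∀ u' ∈ D, u' x = 0 → ∃ k : ℝ, u' = k • u := by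
    by_cases hex : ∃ u ∈ D, u ≠ 0 ∧ u x = 0
    · obtain ⟨u, hu, hne, hz⟩ := hex
      refine ⟨u, hT hu, fun u' hu' hz' => ?_⟩
      by_cases h : u' = 0
      · exact ⟨0, by rw [h]; module⟩
      · rcases hs u hu u' hu' hne h hz hz' with h | h
        · exact ⟨1, by rw [h]; module⟩
        · exact ⟨-1, by rw [h]; module⟩
    · refine ⟨0, h0, fun u' hu' hz' => ⟨0, ?_⟩⟩
      by_contra h
      refine hex ⟨u', hu', ?_, hz'⟩
      intro h'
      exact h (by rw [h']; module)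
  obtain ⟨u, hu, h⟩ := key
  obtain ⟨k1, e1⟩ := h u1 h1 z1
  obtain ⟨k2, e2⟩ := h u2 h2 z2
  obtain ⟨k3, e3⟩ := h u3 h3 z3
  obtain ⟨k4, e4⟩ := h u4 h4 z4
  refine ⟨u, hu, (k2 - k1) - (k4 - k3), ?_⟩
  have q : ((k2 - k1) - (k4 - k3)) • u = (k2 • u - k1 • u) - (k4 • u - k3 • u) := by module
  rw [q, ← e1, ← e2, ← e3, ← e4]

theorem transport {m : Mech S} (c : Chain m) {w v : E →L[ℝ] ℝ} {a b y' y'' p q : E}
    (ha : a ∈ Nr S c.δ c.F3) (hb : b ∈ Nr S c.δ c.F3) (hy' : y' ∈ Nr S c.δ c.F3)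
    (hy'' : y'' ∈ Nr S c.δ c.F3) (hp : p ∈ Nr S c.δ c.F3) (hq : q ∈ Nr S c.δ c.F3)
    (hw : Adj c.D w y' y'')
    (hv1 : ∀ t ∈ Icc (0 : ℝ) 1, m.A b y' (seg p q t) - m.A a y' (seg p q t) = 0 ∨
      m.A b y' (seg p q t) - m.A a y' (seg p q t) = v)
    (hv2 : ∀ t ∈ Icc (0 : ℝ) 1, m.A b y'' (seg p q t) - m.A a y'' (seg p q t) = 0 ∨
      m.A b y'' (seg p q t) - m.A a y'' (seg p q t) = v)
    (H : ∀ t ∈ Icc (0 : ℝ) 1, ∀ i j : ℤ, |i| ≤ 2 → |j| ≤ 2 →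
      (i : ℝ) * w (seg p q t) + (j : ℝ) * v (seg p q t) = 0 →
      (Simple c.D (seg p q t) → ∃ u ∈ S.Tri, ∃ k : ℝ, (i : ℝ) • w + (j : ℝ) • v = k • u) → i = 0)
    (ha1 : m.B a y' q = m.B a y'' q) (hb1 : m.B b y' q = m.B b y'' q) :
    m.B b y' p = m.B b y'' p ↔ m.B a y' p = m.B a y'' p := by
  classical
  have hx : ∀ t ∈ Icc (0 : ℝ) 1, seg p q t ∈ Nr S c.δ c.F3 := fun t ht =>
    seg_mem (convex_Nr _ _) hp hq ht
  have h0T : (0 : E →L[ℝ] ℝ) ∈ S.Tri := by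
    have := m.tA a a a a a a
    rwa [sub_self] at this
  -- the differences of the second agent
  have hB : ∀ i ∈ Nr S c.δ c.F3, ∀ t ∈ Icc (0 : ℝ) 1,
      m.B i y' (seg p q t) - m.B i y'' (seg p q t) = 0 ∨
        m.B i y' (seg p q t) - m.B i y'' (seg p q t) = w := by
    intro i hi t ht
    refine hw _ (c.d3B i hi y' hy' _ (hx t ht) i hi y'' hy'' _ (hx t ht)) ?_ ?_
    · have h := m.iB i y' y'' (seg p q t) (Nr_ty hy')
      rw [_root_.sub_apply]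
      linarith
    · have h := m.iB i y'' y' (seg p q t) (Nr_ty hy'')
      rw [_root_.sub_apply]
      linarith
  have hεb : ∀ t : ℝ, ∃ k : ℤ, t ∈ Icc (0 : ℝ) 1 → 0 ≤ k ∧ k ≤ 1 ∧
      m.B b y' (seg p q t) - m.B b y'' (seg p q t) = (k : ℝ) • w ∧
      (m.B b y' (seg p q t) = m.B b y'' (seg p q t) ↔ k = 0) := by
    intro t
    by_cases ht : t ∈ Icc (0 : ℝ) 1
    · obtain ⟨k, h⟩ := tr_coef' (hB b hb t ht)
      exact ⟨k, fun _ => h⟩
    · exact ⟨0, fun h => absurd h ht⟩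
  have hεa : ∀ t : ℝ, ∃ k : ℤ, t ∈ Icc (0 : ℝ) 1 → 0 ≤ k ∧ k ≤ 1 ∧
      m.B a y' (seg p q t) - m.B a y'' (seg p q t) = (k : ℝ) • w ∧
      (m.B a y' (seg p q t) = m.B a y'' (seg p q t) ↔ k = 0) := by
    intro t
    by_cases ht : t ∈ Icc (0 : ℝ) 1
    · obtain ⟨k, h⟩ := tr_coef' (hB a ha t ht)
      exact ⟨k, fun _ => h⟩
    · exact ⟨0, fun h => absurd h ht⟩
  have hκ1 : ∀ t : ℝ, ∃ k : ℤ, t ∈ Icc (0 : ℝ) 1 → 0 ≤ k ∧ k ≤ 1 ∧
      m.A b y' (seg p q t) - m.A a y' (seg p q t) = (k : ℝ) • v := by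
    intro t
    by_cases ht : t ∈ Icc (0 : ℝ) 1
    · obtain ⟨k, h⟩ := tr_coef (hv1 t ht)
      exact ⟨k, fun _ => h⟩
    · exact ⟨0, fun h => absurd h ht⟩
  have hκ2 : ∀ t : ℝ, ∃ k : ℤ, t ∈ Icc (0 : ℝ) 1 → 0 ≤ k ∧ k ≤ 1 ∧
      m.A b y'' (seg p q t) - m.A a y'' (seg p q t) = (k : ℝ) • v := by
    intro t
    by_cases ht : t ∈ Icc (0 : ℝ) 1
    · obtain ⟨k, h⟩ := tr_coef (hv2 t ht)
      exact ⟨k, fun _ => h⟩
    · exact ⟨0, fun h => absurd h ht⟩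
  choose εb hεb using hεb
  choose εa hεa using hεa
  choose κ1 hκ1 using hκ1
  choose κ2 hκ2 using hκ2
  -- the mixed difference of the third agent
  have hR : ∀ t ∈ Icc (0 : ℝ) 1,
      ((εb t - εa t : ℤ) : ℝ) • w + ((κ1 t - κ2 t : ℤ) : ℝ) • v =
        -((m.C b y' (seg p q t) - m.C b y'' (seg p q t)) -
          (m.C a y' (seg p q t) - m.C a y'' (seg p q t))) := by
    intro t ht
    have e1 := (hεb t ht).2.2.1
    have e2 := (hεa t ht).2.2.1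
    have e3 := (hκ1 t ht).2.2
    have e4 := (hκ2 t ht).2.2
    have qq : ((εb t - εa t : ℤ) : ℝ) • w + ((κ1 t - κ2 t : ℤ) : ℝ) • v =
        ((εb t : ℝ) • w - (εa t : ℝ) • w) + ((κ1 t : ℝ) • v - (κ2 t : ℝ) • v) := by
      push_cast
      module
    rw [qq, ← e1, ← e2, ← e3, ← e4]
    have s1 : m.C b y' (seg p q t) =
        S.lam - m.A b y' (seg p q t) - m.B b y' (seg p q t) := by
      rw [← m.sum b y' (seg p q t)]; abel
    have s2 : m.C b y'' (seg p q t) =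
        S.lam - m.A b y'' (seg p q t) - m.B b y'' (seg p q t) := by
      rw [← m.sum b y'' (seg p q t)]; abel
    have s3 : m.C a y' (seg p q t) =
        S.lam - m.A a y' (seg p q t) - m.B a y' (seg p q t) := by
      rw [← m.sum a y' (seg p q t)]; abel
    have s4 : m.C a y'' (seg p q t) =
        S.lam - m.A a y'' (seg p q t) - m.B a y'' (seg p q t) := by
      rw [← m.sum a y'' (seg p q t)]; abel
    rw [s1, s2, s3, s4]
    abel
  have hconst : (fun t => εb t - εa t) 0 = (fun t => εb t - εa t) 1 := by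
    refine const_of_local (fun t => εb t - εa t) ?_
    intro t ht
    obtain ⟨N, hN, h⟩ := zero_seg c.D_fin p q t
    refine ⟨N, hN, fun t' ht' t'' ht'' hI' hI'' => ?_⟩
    show εb t' - εa t' = εb t'' - εa t''
    have hC : ∀ i ∈ Nr S c.δ c.F3, ∀ j ∈ Nr S c.δ c.F3,
        m.C i j (seg p q t') - m.C i j (seg p q t'') ∈ c.D ∧
          (m.C i j (seg p q t') - m.C i j (seg p q t'')) (seg p q t) = 0 := by
      intro i hi j hj
      have hD := c.d3C i hi j hj _ (hx t' hI') i hi j hj _ (hx t'' hI'')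
      refine ⟨hD, h t' ht' t'' ht'' _ hD ?_ ?_⟩
      · have h := m.iC i j (seg p q t') (seg p q t'') (Nr_ty (hx t' hI'))
        rw [_root_.sub_apply]
        linarith
      · have h := m.iC i j (seg p q t'') (seg p q t') (Nr_ty (hx t'' hI''))
        rw [_root_.sub_apply]
        linarith
    obtain ⟨d1, z1⟩ := hC b hb y' hy'
    obtain ⟨d2, z2⟩ := hC b hb y'' hy''
    obtain ⟨d3, z3⟩ := hC a ha y' hy'
    obtain ⟨d4, z4⟩ := hC a ha y'' hy''
    have r1 := hR t' hI'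
    have r2 := hR t'' hI''
    have hsum : (((εb t' - εa t') - (εb t'' - εa t'') : ℤ) : ℝ) • w +
        (((κ1 t' - κ2 t') - (κ1 t'' - κ2 t'') : ℤ) : ℝ) • v =
        ((m.C b y'' (seg p q t') - m.C b y'' (seg p q t'')) -
          (m.C b y' (seg p q t') - m.C b y' (seg p q t''))) -
        ((m.C a y'' (seg p q t') - m.C a y'' (seg p q t'')) -
          (m.C a y' (seg p q t') - m.C a y' (seg p q t''))) := by
      have e : (((εb t' - εa t') - (εb t'' - εa t'') : ℤ) : ℝ) • w +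
          (((κ1 t' - κ2 t') - (κ1 t'' - κ2 t'') : ℤ) : ℝ) • v =
          (((εb t' - εa t' : ℤ) : ℝ) • w + ((κ1 t' - κ2 t' : ℤ) : ℝ) • v) -
          (((εb t'' - εa t'' : ℤ) : ℝ) • w + ((κ1 t'' - κ2 t'' : ℤ) : ℝ) • v) := by
        push_cast
        module
      rw [e, r1, r2]
      abel
    obtain ⟨b1, b2, -, -⟩ := hεb t' hI'
    obtain ⟨b3, b4, -, -⟩ := hεb t'' hI''
    obtain ⟨a1, a2, -, -⟩ := hεa t' hI'
    obtain ⟨a3, a4, -, -⟩ := hεa t'' hI''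
    obtain ⟨k1, k2, -⟩ := hκ1 t' hI'
    obtain ⟨k3, k4, -⟩ := hκ1 t'' hI''
    obtain ⟨l1, l2, -⟩ := hκ2 t' hI'
    obtain ⟨l3, l4, -⟩ := hκ2 t'' hI''
    have hfin := H t ht ((εb t' - εa t') - (εb t'' - εa t''))
      ((κ1 t' - κ2 t') - (κ1 t'' - κ2 t'')) (by rw [abs_le]; omega) (by rw [abs_le]; omega)
      (by
        have h1 := congrArg (fun f : E →L[ℝ] ℝ => f (seg p q t)) hsum
        simp only [_root_.add_apply, _root_.smul_apply,
          _root_.sub_apply, smul_eq_mul] at h1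
        simp only [_root_.sub_apply] at z1 z2 z3 z4
        rw [h1]
        linarith)
      (by
        intro hs
        rw [hsum]
        exact tr_four hs c.D_tri h0T d1 d2 d3 d4 z1 z2 z3 z4)
    omega
  have hI0 : (0 : ℝ) ∈ Icc (0 : ℝ) 1 := ⟨le_rfl, zero_le_one⟩
  have hI1 : (1 : ℝ) ∈ Icc (0 : ℝ) 1 := ⟨zero_le_one, le_rfl⟩
  have hb0 := (hεb 0 hI0).2.2.2
  have ha0 := (hεa 0 hI0).2.2.2
  have hb2 := (hεb 1 hI1).2.2.2
  have ha2 := (hεa 1 hI1).2.2.2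
  rw [seg_zero] at hb0 ha0
  rw [seg_one] at hb2 ha2
  have hb3 := hb2.1 hb1
  have ha3 := ha2.1 ha1
  have hc : εb 0 - εa 0 = εb 1 - εa 1 := hconst
  rw [hb0, ha0]
  omega

end Pool.Agent.Helper83.TM
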