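import Pool.Agent.Helper83.TM.St.Gen
import Pool.Agent.Helper83.TM.St.Near

/-!
# TM-Wall: an effective wall of the second agent at a generic common type

1. `d`: apply `exists_generic c.D_fin` to the open set `interior S.Ty ∩ ball S.one c.δ` (contains
   `S.one`).  Then `d ∈ Nr S c.δ {S.one}` (`mem_Nr_of_dist`), and `Simple c.D d` holds vacuously
   (`Simple` needs a nonzero wall through `d`).
2. `c.t1` gives `τ ∈ c.F1` with `m.B d d d τ = 0`; `τ ∈ S.Ty`.
3. `pos_nearB` gives `ρ`.  Let `O` be the set of the `z` in `interior S.Ty` with `dist z τ < ρ`,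
   `dist z τ < c.δ` and `w z < 0` for all `w ∈ c.D` with `w τ < 0` (finite intersection of open
   sets).  `O` is not empty: `seg τ S.one θ` for small `θ > 0` is in the interior
   (`Convex.combo_interior_self_mem_interior` or `combo_self_interior_mem_interior`) and tends to
   `τ` for `θ → 0`.
   `exists_seg` (with `c.D_tri`) gives `z ∈ O` with `Simple c.D (seg d z t)` for all `t`.
4. `y t = seg d z t`, `t ∈ Icc 0 1`, is in `Nr S c.δ c.F1` (`seg_mem (convex_Nr ..)`, `Nr_mono`,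
   `c.one1`).  Let `f t = m.B d (y t) d τ`.  `f 0 = 0`, `f 1 > 0`.  By `const_of_local` (contrapositive)
   there is `s ∈ Icc 0 1` such that every neighbourhood `N` of `s` contains `s', s'' ∈ Icc 0 1` with
   `f s' ≠ f s''`.  Take for `N` the intersection of the neighbourhoods of `zero_seg` and
   `adj_seg`.  Exchange `s'` and `s''` so that `f s' < f s''`.  `w = m.B d (y s') d - m.B d (y s'') d`
   is in `c.D1` (`c.d1`) and in `c.D` (`c.d3B`), `w τ < 0`, so `w ≠ 0` and `w z < 0`;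
   `0 ≤ w (y s')` and `w (y s'') ≤ 0` by `m.iB`, hence `w (y s) = 0`: `(1 - s) * w d + s * w z = 0`.
   `w d ≠ 0` (generic), so `s ≠ 0`, `s ≠ 1` (as `w z ≠ 0`), and `w d = - s * w z / (1 - s) > 0`.
   `adj_seg` gives `v` with `Adj c.D v (y s') (y s'')`; apply it to `u = w`: `w = 0` (no) or `w = v`.
-/

set_option autoImplicit false

open Set Filter Topology

namespace Pool.Agent.Helper83.TM

variable {E : Type*} [NormedAddCommGroup E] [NormedSpace ℝ E] {S : Space E}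

theorem exists_wall {m : Mech S} (c : Chain m) : ∃ d ∈ interior S.Ty,
    d ∈ Nr S c.δ {S.one} ∧ (∀ φ ∈ c.D, φ ≠ 0 → φ d ≠ 0) ∧
    ∃ w ∈ c.D1, ∃ y' ∈ Nr S c.δ c.F1, ∃ y'' ∈ Nr S c.δ c.F1,
      0 < w d ∧ Adj c.D w y' y'' ∧ m.B d y' d - m.B d y'' d = w := by
  have hδ := c.δ_pos
  obtain ⟨d, hdO, hgen⟩ := exists_generic c.D_fin (O := interior S.Ty ∩ Metric.ball S.one c.δ)
    (isOpen_interior.inter Metric.isOpen_ball) ⟨S.one, S.one_int, Metric.mem_ball_self hδ⟩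
  obtain ⟨hd, hdb⟩ := hdO
  have hd' : d ∈ Nr S c.δ {S.one} := mem_Nr_of_dist (mem_singleton _) (interior_subset hd) hdb
  have hone1 : Nr S c.δ {S.one} ⊆ Nr S c.δ c.F1 := Nr_mono (singleton_subset_iff.2 c.one1)
  have h13 : Nr S c.δ c.F1 ⊆ Nr S c.δ c.F3 := Nr_mono (c.s12.trans c.s23)
  have hd1 : d ∈ Nr S c.δ c.F1 := hone1 hd'
  have hd3 : d ∈ Nr S c.δ c.F3 := h13 hd1
  have hSd : Simple c.D d := fun u hu _ _ h0 _ h1 _ => absurd h1 (hgen u hu h0)
  obtain ⟨τ, hτ, hBτ⟩ := c.t1 d hd' d hd' d hd'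
  have hτ3 : τ ∈ c.F3 := c.s23 (c.s12 hτ)
  have hτty : τ ∈ S.Ty := c.ty hτ3
  obtain ⟨ρ, hρ, hpos⟩ := pos_nearB c hτ3
  -- the end point of the path
  set P : Set E := Metric.ball τ ρ ∩ (Metric.ball τ c.δ ∩ ⋂ w ∈ c.D, {x | w τ < 0 → w x < 0})
    with hP
  have hPo : IsOpen P := by
    refine Metric.isOpen_ball.inter (Metric.isOpen_ball.inter ?_)
    refine c.D_fin.isOpen_biInter fun w _ => ?_
    by_cases hw : w τ < 0
    · simp only [hw, true_imp_iff]
      exact isOpen_lt w.continuous continuous_const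
    · simp [hw]
  have hτP : τ ∈ P := by
    refine ⟨Metric.mem_ball_self hρ, Metric.mem_ball_self hδ, ?_⟩
    simp
  have hOne : (interior S.Ty ∩ P).Nonempty := by
    have hc := continuous_seg τ d
    have h1 : ∀ᶠ θ in 𝓝[>] (0 : ℝ), seg τ d θ ∈ P := by
      refine nhdsWithin_le_nhds (hc.continuousAt.eventually (hPo.mem_nhds ?_))
      rw [seg_zero]
      exact hτP
    have h2 : ∀ᶠ θ in 𝓝[>] (0 : ℝ), θ ∈ Ioc (0 : ℝ) 1 := Ioc_mem_nhdsGT (by norm_num)
    obtain ⟨θ, h3, h4⟩ := (h1.and h2).exists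
    refine ⟨seg τ d θ, ?_, h3⟩
    exact S.conv.combo_self_interior_mem_interior hτty hd (by linarith [h4.2]) h4.1 (by ring)
  obtain ⟨z, hzO, hs⟩ := exists_seg (S := S) c.D_fin c.D_tri hSd (isOpen_interior.inter hPo) hOne
  obtain ⟨hzi, hzρ, hzδ, hzw⟩ := hzO
  have hzty : z ∈ S.Ty := interior_subset hzi
  have hz1 : z ∈ Nr S c.δ c.F1 := mem_Nr_of_dist hτ hzty hzδ
  have hzw' : ∀ w ∈ c.D, w τ < 0 → w z < 0 := fun w hw => (mem_iInter₂.1 hzw) w hw
  have hy1 : ∀ t ∈ Icc (0 : ℝ) 1, seg d z t ∈ Nr S c.δ c.F1 :=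
    fun t ht => seg_mem (convex_Nr _ _) hd1 hz1 ht
  let f : ℝ → ℝ := fun t => m.B d (seg d z t) d τ
  have f0 : f 0 = 0 := by
    show m.B d (seg d z 0) d τ = 0
    rw [seg_zero]
    exact hBτ
  have f1 : 0 < f 1 := by
    show 0 < m.B d (seg d z 1) d τ
    rw [seg_one]
    exact hpos d hd3 d hd3 z hzty hzρ
  obtain ⟨s, hs01, hsN⟩ : ∃ s ∈ Icc (0 : ℝ) 1, ∀ N ∈ 𝓝 s, ∃ s' ∈ N, ∃ s'' ∈ N,
      s' ∈ Icc (0 : ℝ) 1 ∧ s'' ∈ Icc (0 : ℝ) 1 ∧ f s' < f s'' := by
    by_contra hcon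
    push Not at hcon
    have h1 : f 0 = f 1 := by
      apply const_of_local
      intro s hs
      obtain ⟨N, hN, h⟩ := hcon s hs
      refine ⟨N, hN, fun s' h1 s'' h2 h3 h4 => le_antisymm ?_ ?_⟩
      · exact h s'' h2 s' h1 h4 h3
      · exact h s' h1 s'' h2 h3 h4
    linarith
  obtain ⟨N1, hN1, hz0⟩ := zero_seg c.D_fin d z s
  obtain ⟨N2, hN2, hadj⟩ := adj_seg c.D_fin hgen hs s
  obtain ⟨s', h1, s'', h2, h3, h4, h5⟩ := hsN (N1 ∩ N2) (inter_mem hN1 hN2)
  have hy' := hy1 s' h3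
  have hy'' := hy1 s'' h4
  set w : E →L[ℝ] ℝ := m.B d (seg d z s') d - m.B d (seg d z s'') d with hw
  have hwD1 : w ∈ c.D1 := c.d1 d hd1 _ hy' d hd1 d hd1 _ hy'' d hd1
  have hwD : w ∈ c.D := c.d3B d hd3 _ (h13 hy') d hd3 d hd3 _ (h13 hy'') d hd3
  have hwτ : w τ < 0 := by
    have h6 : w τ = f s' - f s'' := rfl
    rw [h6]
    linarith
  have hw0 : w ≠ 0 := by
    intro h
    rw [h] at hwτ
    simp at hwτ
  have hwz : w z < 0 := hzw' w hwD hwτ
  have hw' : 0 ≤ w (seg d z s') := by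
    have := m.iB d (seg d z s') (seg d z s'') d (Nr_ty hy')
    simp only [hw, ContinuousLinearMap.sub_apply]
    linarith
  have hw'' : w (seg d z s'') ≤ 0 := by
    have := m.iB d (seg d z s'') (seg d z s') d (Nr_ty hy'')
    simp only [hw, ContinuousLinearMap.sub_apply]
    linarith
  have hws : w (seg d z s) = 0 := hz0 s' h1.1 s'' h2.1 w hwD hw' hw''
  have hwd0 : w d ≠ 0 := hgen w hwD hw0
  have hwd : 0 < w d := by
    rw [seg_apply] at hws
    by_contra h6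
    have h7 : w d < 0 := lt_of_le_of_ne (not_lt.1 h6) hwd0
    have h8 : (1 - s) * w d ≤ 0 := mul_nonpos_of_nonneg_of_nonpos (by linarith [hs01.2]) h7.le
    have h9 : s * w z ≤ 0 := mul_nonpos_of_nonneg_of_nonpos hs01.1 hwz.le
    have h10 : (1 - s) * w d = 0 := by linarith
    have h11 : s * w z = 0 := by linarith
    have h12 : 1 - s = 0 := (mul_eq_zero.1 h10).resolve_right h7.ne
    have h13 : s = 0 := (mul_eq_zero.1 h11).resolve_right hwz.ne
    linarith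
  have hne : s' ≠ s'' := by
    rintro rfl
    exact lt_irrefl _ h5
  obtain ⟨v, -, -, hv⟩ := hadj s' h1.2 s'' h2.2 hne
  have hvw : w = v := (hv w hwD hw' hw'').resolve_left hw0
  refine ⟨d, hd, hd', hgen, w, hwD1, _, hy', _, hy'', hwd, ?_, rfl⟩
  rw [hvw]
  exact hv

end Pool.Agent.Helper83.TM
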